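import Pool.Agent.Helper24.AT.Weight

/-!
# The adversary for 3SUM

Lists of `3 n` numbers: `a i = α + i θ`, `b j = β + j θ + T (j - j₀)²`,
`c k = - α - β - k θ + T (k - k₀)² + e T` with `β ≫ α ≫ θ ≫ T`.
-/

open MvPolynomial

namespace Pool.Agent.Helper24.AT

/-- The positions of a list of `3 n` numbers: three thirds with `n` positions each. -/
abbrev Pos (n : ℕ) := Fin 3 × Fin n

/-- The sets of positions which a test may read: at most three positions, or any number of positions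
of one third and at most one other position, or any number of positions of the first third, at most
one position of the second third and at most one position of the last third. -/
def Restricted {n : ℕ} (S : Finset (Pos n)) : Prop :=
  S.card ≤ 3 ∨ (∃ (l : Fin 3) (v : Pos n), ∀ u ∈ S, u.1 = l ∨ u = v) ∨
    ∃ j k : Fin n, ∀ u ∈ S, u.1 = 0 ∨ u = (1, j) ∨ u = (2, k)

theorem restricted_cases {n : ℕ} (S : Finset (Pos n)) (hS : Restricted S) :
    (∃ (l : Fin 3) (v : Pos n), ∀ u ∈ S, u.1 = l ∨ u = v) ∨ S = ∅ ∨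
      ∃ j k : Fin n, ∀ u ∈ S, u.1 = 0 ∨ u = (1, j) ∨ u = (2, k) := by
  classical
  rcases hS with hS | hS | hS
  rotate_left
  · exact Or.inl hS
  · exact Or.inr (Or.inr hS)
  by_cases h : ∀ l : Fin 3, ∃ u ∈ S, u.1 = l
  · obtain ⟨⟨l0, i⟩, hu, rfl⟩ := h 0
    obtain ⟨⟨l1, j⟩, hv, rfl⟩ := h 1
    obtain ⟨⟨l2, k⟩, hw, rfl⟩ := h 2
    have hS3 : ({(0, i), (1, j), (2, k)} : Finset (Pos n)) = S := by
      refine Finset.eq_of_subset_of_card_le ?_ ?_
      · intro x hx
        simp only [Finset.mem_insert, Finset.mem_singleton] at hx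
        rcases hx with rfl | rfl | rfl <;> assumption
      · rw [Finset.card_insert_of_notMem, Finset.card_insert_of_notMem, Finset.card_singleton]
        · exact hS
        · simp
        · simp
    refine Or.inr (Or.inr ⟨j, k, fun u hu => ?_⟩)
    rw [← hS3] at hu
    simp only [Finset.mem_insert, Finset.mem_singleton] at hu
    rcases hu with rfl | rfl | rfl
    · exact Or.inl rfl
    · exact Or.inr (Or.inl rfl)
    · exact Or.inr (Or.inr rfl)
  · push Not at h
    obtain ⟨l, hl⟩ := h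
    -- two thirds remain
    obtain ⟨p, q, hpq, hcov⟩ : ∃ p q : Fin 3, p ≠ q ∧ ∀ m : Fin 3, m ≠ l → m = p ∨ m = q := by
      fin_cases l
      · exact ⟨1, 2, by decide, by decide⟩
      · exact ⟨0, 2, by decide, by decide⟩
      · exact ⟨0, 1, by decide, by decide⟩
    have hdisj : Disjoint (S.filter fun u => u.1 = p) (S.filter fun u => u.1 = q) := by
      rw [Finset.disjoint_filter]
      intro x _ h1 h2
      exact hpq (h1.symm.trans h2)
    have hcard : (S.filter fun u => u.1 = p).card + (S.filter fun u => u.1 = q).card ≤ 3 := by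
      rw [← Finset.card_union_of_disjoint hdisj]
      refine (Finset.card_le_card ?_).trans hS
      exact Finset.union_subset (Finset.filter_subset _ _) (Finset.filter_subset _ _)
    have aux : ∀ p q : Fin 3, (∀ m : Fin 3, m ≠ l → m = p ∨ m = q) →
        (S.filter fun u => u.1 = p).card ≤ 1 →
        (∃ (l : Fin 3) (v : Pos n), ∀ u ∈ S, u.1 = l ∨ u = v) ∨ S = ∅ ∨
          ∃ j k : Fin n, ∀ u ∈ S, u.1 = 0 ∨ u = (1, j) ∨ u = (2, k) := by
      intro p q hcov hp
      by_cases hne : (S.filter fun u => u.1 = p).Nonempty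
      · obtain ⟨v, hv⟩ := hne
        refine Or.inl ⟨q, v, fun u hu => ?_⟩
        rcases hcov u.1 (hl u hu) with h1 | h1
        · right
          exact Finset.card_le_one.1 hp u (Finset.mem_filter.2 ⟨hu, h1⟩) v hv
        · exact Or.inl h1
      · rw [Finset.not_nonempty_iff_eq_empty, Finset.filter_eq_empty_iff] at hne
        by_cases hS0 : S = ∅
        · exact Or.inr (Or.inl hS0)
        · obtain ⟨v, hv⟩ := Finset.nonempty_iff_ne_empty.2 hS0
          refine Or.inl ⟨q, v, fun u hu => ?_⟩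
          rcases hcov u.1 (hl u hu) with h1 | h1
          · exact absurd h1 (hne hu)
          · exact Or.inl h1
    rcases (by omega : (S.filter fun u => u.1 = p).card ≤ 1 ∨
        (S.filter fun u => u.1 = q).card ≤ 1) with h1 | h1
    · exact aux p q hcov h1
    · exact aux q p (fun m hm => (hcov m hm).symm) h1

variable {R : Type*} [CommRing R] [LinearOrder R] [IsStrictOrderedRing R]

/-- A linear form. -/
noncomputable def lin (c : Fin 4 → R) : MvPolynomial (Fin 4) R :=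
  C (c 0) * X 0 + C (c 1) * X 1 + C (c 2) * X 2 + C (c 3) * X 3

omit [LinearOrder R] [IsStrictOrderedRing R] in
theorem eval_lin (c z : Fin 4 → R) :
    eval z (lin c) = c 0 * z 0 + c 1 * z 1 + c 2 * z 2 + c 3 * z 3 := by
  simp [lin]

theorem weight_lin (c : Fin 4 → R) : weight (lin c) ≤ |c 0| + |c 1| + |c 2| + |c 3| := by
  have h : ∀ i : Fin 4, weight (C (c i) * X i : MvPolynomial (Fin 4) R) ≤ |c i| := by
    intro i
    refine (weight_mul_le _ _).trans ?_
    calc weight (C (c i)) * weight (X i : MvPolynomial (Fin 4) R) ≤ |c i| * 1 :=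
          mul_le_mul (weight_C_le _) (weight_X_le _) (weight_nonneg _) (abs_nonneg _)
      _ = |c i| := mul_one _
  unfold lin
  refine (weight_add_le _ _).trans (add_le_add ((weight_add_le _ _).trans (add_le_add
    ((weight_add_le _ _).trans (add_le_add (h 0) (h 1))) (h 2))) (h 3))

omit [LinearOrder R] [IsStrictOrderedRing R] in
theorem totalDegree_lin (c : Fin 4 → R) : (lin c).totalDegree ≤ 1 := by
  have h : ∀ i : Fin 4, (C (c i) * X i : MvPolynomial (Fin 4) R).totalDegree ≤ 1 := by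
    intro i
    refine (totalDegree_mul _ _).trans ?_
    rw [totalDegree_C, zero_add]
    rcases subsingleton_or_nontrivial R with h | h
    · rw [show (X i : MvPolynomial (Fin 4) R) = 0 from Subsingleton.elim _ _]
      simp
    · rw [totalDegree_X]
  unfold lin
  refine (totalDegree_add _ _).trans (max_le ((totalDegree_add _ _).trans (max_le
    ((totalDegree_add _ _).trans (max_le (h 0) (h 1))) (h 2))) (h 3))

/-- The kinds of substitutions. -/
inductive Kind (n : ℕ)
  | Ab | Ac | Ba | Bc | Ca | Cb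
  | J (j k : Fin n)
  deriving DecidableEq

instance (n : ℕ) : Finite (Kind n) := by
  have : Function.Surjective (fun q : Fin 6 ⊕ (Fin n × Fin n) => match q with
    | .inl 0 => (Kind.Ab : Kind n)
    | .inl 1 => Kind.Ac
    | .inl 2 => Kind.Ba
    | .inl 3 => Kind.Bc
    | .inl 4 => Kind.Ca
    | .inl 5 => Kind.Cb
    | .inr (j, k) => Kind.J j k) := by
    intro x
    cases x with
    | Ab => exact ⟨.inl 0, rfl⟩
    | Ac => exact ⟨.inl 1, rfl⟩
    | Ba => exact ⟨.inl 2, rfl⟩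
    | Bc => exact ⟨.inl 3, rfl⟩
    | Ca => exact ⟨.inl 4, rfl⟩
    | Cb => exact ⟨.inl 5, rfl⟩
    | J j k => exact ⟨.inr (j, k), rfl⟩
  exact Finite.of_surjective _ this

/-- The coefficients of the linear forms, `t` is the index of the position in its third. -/
def form0 {R : Type*} [CommRing R] {n : ℕ} (f : Kind n) (l : Fin 3) (t : R) : Fin 4 → R :=
  match f with
  | .Ab => ![![0, 1, t, 0], ![1, 0, 0, 0], ![0, 0, 0, 0]] l
  | .Ac => ![![0, 1, t, 0], ![0, 0, 0, 0], ![-1, 0, 0, 0]] l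
  | .Ba => ![![0, 1, 0, 0], ![1, 0, t, t ^ 2], ![0, 0, 0, 0]] l
  | .Bc => ![![0, 0, 0, 0], ![1, 0, t, t ^ 2], ![-1, -1, 0, 0]] l
  | .Ca => ![![0, 1, 0, 0], ![0, 0, 0, 0], ![-1, 0, -t, t ^ 2]] l
  | .Cb => ![![0, 0, 0, 0], ![1, 0, 0, 0], ![-1, -1, -t, t ^ 2]] l
  | .J j k => ![![0, 1, t, 0], ![1, 0, 0, 0],
      ![-1, -1, ((j : ℕ) : R) - ((k : ℕ) : R), 1]] l

/-- The coefficients of the linear forms. -/
def form (R : Type*) [CommRing R] {n : ℕ} (f : Kind n) (v : Pos n) : Fin 4 → R :=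
  form0 f v.1 (((v.2 : ℕ) : R))

/-- The linear forms. -/
noncomputable def frm (R : Type*) [CommRing R] {n : ℕ} (f : Kind n) (v : Pos n) :
    MvPolynomial (Fin 4) R := lin (form R f v)

theorem weight_frm {n : ℕ} (f : Kind n) (v : Pos n) : weight (frm R f v) ≤ 6 * (n : R) ^ 2 := by
  refine (weight_lin _).trans ?_
  obtain ⟨l, i⟩ := v
  have hi : ((i : ℕ) : R) + 1 ≤ (n : R) := by exact_mod_cast i.2
  have hi0 : (0 : R) ≤ ((i : ℕ) : R) := by positivity
  have hn : (1 : R) ≤ (n : R) := by linarith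
  have hn2 : (1 : R) ≤ (n : R) ^ 2 := one_le_pow₀ hn
  have hn3 : (n : R) ≤ (n : R) ^ 2 := by nlinarith
  have hi2 : ((i : ℕ) : R) ^ 2 ≤ (n : R) ^ 2 := by
    refine pow_le_pow_left₀ hi0 (by linarith) 2
  have hi3 : (0 : R) ≤ ((i : ℕ) : R) ^ 2 := by positivity
  have hi5 : |((i : ℕ) : R)| = ((i : ℕ) : R) := abs_of_nonneg hi0
  have hi6 : |((i : ℕ) : R) ^ 2| = ((i : ℕ) : R) ^ 2 := abs_of_nonneg (by positivity)
  cases f with
  | J j k =>
    have hj : ((j : ℕ) : R) ≤ (n : R) := by exact_mod_cast j.2.le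
    have hk : ((k : ℕ) : R) ≤ (n : R) := by exact_mod_cast k.2.le
    have hj0 : (0 : R) ≤ ((j : ℕ) : R) := by positivity
    have hk0 : (0 : R) ≤ ((k : ℕ) : R) := by positivity
    have hjk : |((j : ℕ) : R) - ((k : ℕ) : R)| ≤ n := by
      rw [abs_le]
      constructor <;> linarith
    fin_cases l <;>
      simp only [form, form0, Matrix.cons_val, Fin.zero_eta, Fin.mk_one, Fin.reduceFinMk, abs_neg,
        abs_zero, abs_one, hi5, hi6] <;> nlinarith
  | _ =>
    fin_cases l <;>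
      simp only [form, form0, Matrix.cons_val, Fin.zero_eta, Fin.mk_one, Fin.reduceFinMk, abs_neg,
        abs_zero, abs_one, hi5, hi6] <;> nlinarith

/-- The exponent of `α`. -/
def expA (D : ℕ) : ℕ := 2 * D ^ 2 + 5 * D + 5

/-- The exponent of `β`. -/
def expB (D : ℕ) : ℕ := (expA D + 2) * D + (2 * D + 3) * D + 2 * D + 1

/-- The lists: `e = 0` for the lists with the solution `k₀ - j₀, j₀, k₀`, and `j₀ = k₀ = 0`, `e = 1`
for the list without solution. -/
def inst {n : ℕ} (T : R) (D : ℕ) (j₀ k₀ e : R) (v : Pos n) : R :=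
  ![T ^ (expA D + 1) + ((v.2 : ℕ) : R) * T ^ (2 * D + 2),
    T ^ (expB D + 1) + ((v.2 : ℕ) : R) * T ^ (2 * D + 2) + T * (((v.2 : ℕ) : R) - j₀) ^ 2,
    -T ^ (expA D + 1) - T ^ (expB D + 1) - ((v.2 : ℕ) : R) * T ^ (2 * D + 2)
      + T * (((v.2 : ℕ) : R) - k₀) ^ 2 + e * T] v.1

/-- The hypotheses on the parameters. -/
structure Hyp (n D : ℕ) (κ T : R) : Prop where
  hn : 1 ≤ n
  hD : 1 ≤ D
  hκ : 0 ≤ κ
  hT : 16 * (n : R) ^ 2 * (κ + 1) ≤ T

namespace Hyp

variable {n D : ℕ} {κ T : R} (h : Hyp n D κ T)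
include h

theorem one_le_n : (1 : R) ≤ n := by exact_mod_cast h.hn

theorem T1 : 16 * (n : R) ^ 2 ≤ T := by
  refine le_trans ?_ h.hT
  have := h.hκ
  have h2 : (0 : R) ≤ 16 * (n : R) ^ 2 := by positivity
  nlinarith

theorem T2 : κ + 1 ≤ T := by
  refine le_trans ?_ h.hT
  have := h.hκ
  have h2 : (1 : R) ≤ (n : R) ^ 2 := one_le_pow₀ h.one_le_n
  nlinarith

theorem T3 : 16 ≤ T := by
  refine le_trans ?_ h.T1
  have h2 : (1 : R) ≤ (n : R) ^ 2 := one_le_pow₀ h.one_le_n
  linarith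

theorem T4 : 16 * (n : R) ≤ T := by
  refine le_trans ?_ h.T1
  have h2 := h.one_le_n
  nlinarith

theorem mono {a b : ℕ} (hab : a ≤ b) : T ^ a ≤ T ^ b :=
  pow_le_pow_right₀ (by linarith [h.T3]) hab

theorem pos (a : ℕ) : 0 < T ^ a := pow_pos (by linarith [h.T3]) a

theorem step {a b : ℕ} (hab : a + 1 ≤ b) : 16 * T ^ a ≤ T ^ b := by
  refine le_trans ?_ (h.mono hab)
  rw [pow_succ, mul_comm]
  exact mul_le_mul_of_nonneg_left h.T3 (h.pos a).le

theorem stepn {a b : ℕ} (hab : a + 1 ≤ b) : 16 * (n : R) * T ^ a ≤ T ^ b := by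
  refine le_trans ?_ (h.mono hab)
  rw [pow_succ, mul_comm (T ^ a)]
  exact mul_le_mul_of_nonneg_right h.T4 (h.pos a).le

theorem stepn2 {a b : ℕ} (hab : a + 1 ≤ b) : 16 * (n : R) ^ 2 * T ^ a ≤ T ^ b := by
  refine le_trans ?_ (h.mono hab)
  rw [pow_succ T a, mul_comm (T ^ a)]
  exact mul_le_mul_of_nonneg_right h.T1 (h.pos a).le

/-- The region. -/
theorem region {z : Fin 4 → R} (h3 : T ≤ z 3) (h3' : z 3 ≤ T ^ 2)
    (h2 : T ^ (2 * D + 1) ≤ z 2) (h2' : z 2 ≤ T ^ (2 * D + 3))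
    (h1 : T ^ expA D ≤ z 1) (h1' : z 1 ≤ T ^ (expA D + 2)) (h0 : T ^ expB D ≤ z 0) :
    Region κ D z := by
  have hT0 : 0 < T := by linarith [h.T3]
  have p3 : 0 < z 3 := hT0.trans_le h3
  have p2 : 0 < z 2 := (h.pos _).trans_le h2
  have p1 : 0 < z 1 := (h.pos _).trans_le h1
  have q3 : z 3 ^ D ≤ T ^ (2 * D) := by
    rw [pow_mul]
    exact pow_le_pow_left₀ p3.le h3' D
  have q2 : z 2 ^ D ≤ T ^ ((2 * D + 3) * D) := by
    rw [pow_mul]
    exact pow_le_pow_left₀ p2.le h2' D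
  have q1 : z 1 ^ D ≤ T ^ ((expA D + 2) * D) := by
    rw [pow_mul]
    exact pow_le_pow_left₀ p1.le h1' D
  have hκ1 : 0 ≤ κ + 1 := by linarith [h.hκ]
  refine ⟨h.T2.trans h3, ?_, ?_, ?_⟩
  · refine le_trans ?_ h2
    calc (κ + 1) * z 3 ^ D ≤ T * T ^ (2 * D) :=
          mul_le_mul h.T2 q3 (by positivity) hT0.le
      _ = T ^ (2 * D + 1) := by rw [pow_succ]; ring
  · refine le_trans ?_ h1
    calc (κ + 1) * (z 2 ^ D * z 3 ^ D) ≤ T * (T ^ ((2 * D + 3) * D) * T ^ (2 * D)) :=
          mul_le_mul h.T2 (mul_le_mul q2 q3 (by positivity) (by positivity)) (by positivity) hT0.le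
      _ = T ^ ((2 * D + 3) * D + 2 * D + 1) := by rw [pow_succ, pow_add]; ring
      _ ≤ T ^ expA D := h.mono (by unfold expA; nlinarith)
  · refine le_trans ?_ h0
    calc (κ + 1) * (z 1 ^ D * (z 2 ^ D * z 3 ^ D))
        ≤ T * (T ^ ((expA D + 2) * D) * (T ^ ((2 * D + 3) * D) * T ^ (2 * D))) :=
          mul_le_mul h.T2 (mul_le_mul q1 (mul_le_mul q2 q3 (by positivity) (by positivity))
            (by positivity) (by positivity)) (by positivity) hT0.le
      _ = T ^ expB D := by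
        unfold expB
        rw [pow_succ, pow_add, pow_add]
        ring

/-- The numerical facts. -/
theorem facts : 16 * ((n : R) * T) ≤ T ^ 2 ∧ 16 * ((n : R) ^ 2 * T) ≤ T ^ 2 ∧
    16 * T ≤ T ^ 2 ∧
    T ^ 2 ≤ T ^ (2 * D + 1) ∧ 16 * T ^ (2 * D + 1) ≤ T ^ (2 * D + 2) ∧
    16 * ((n : R) * T ^ (2 * D + 2)) ≤ T ^ (2 * D + 3) ∧
    16 * T ^ (2 * D + 2) ≤ T ^ (2 * D + 3) ∧ T ^ (2 * D + 3) ≤ T ^ expA D ∧
    16 * T ^ expA D ≤ T ^ (expA D + 1) ∧ 16 * T ^ (expA D + 1) ≤ T ^ (expA D + 2) ∧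
    16 * T ^ (expA D + 2) ≤ T ^ expB D ∧ 16 * T ^ expB D ≤ T ^ (expB D + 1) := by
  have hD := h.hD
  have e1 := h.stepn (a := 1) (b := 2) (by norm_num)
  have e2 := h.stepn2 (a := 1) (b := 2) (by norm_num)
  have e3 := h.step (a := 1) (b := 2) (by norm_num)
  have e4 := h.mono (a := 2) (b := 2 * D + 1) (by omega)
  have e5 := h.step (a := 2 * D + 1) (b := 2 * D + 2) (by omega)
  have e6 := h.stepn (a := 2 * D + 2) (b := 2 * D + 3) (by omega)
  have e7 := h.step (a := 2 * D + 2) (b := 2 * D + 3) (by omega)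
  have e8 := h.mono (a := 2 * D + 3) (b := expA D) (by unfold expA; nlinarith)
  have e9 := h.step (a := expA D) (b := expA D + 1) (by omega)
  have e10 := h.step (a := expA D + 1) (b := expA D + 2) (by omega)
  have e11 := h.step (a := expA D + 2) (b := expB D) (by unfold expB; nlinarith)
  have e12 := h.step (a := expB D) (b := expB D + 1) (by omega)
  rw [pow_one] at e1 e2 e3
  refine ⟨by linarith, by linarith, e3, e4, e5, by linarith, e7, e8, e9, e10, e11, e12⟩

/-- Bounds for squares. -/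
theorem sq1 {x y : R} (hx : 0 ≤ x) (hx' : x ≤ n) (hy : 0 ≤ y) (hy' : y ≤ n) :
    0 ≤ T * (x - y) ^ 2 ∧ 16 * (T * (x - y) ^ 2) ≤ T ^ 2 := by
  obtain ⟨-, f2, -⟩ := h.facts
  have hT0 : 0 < T := by linarith [h.T3]
  refine ⟨by positivity, ?_⟩
  have : (x - y) ^ 2 ≤ (n : R) ^ 2 := by
    refine sq_le_sq' (by linarith) (by linarith)
  have : T * (x - y) ^ 2 ≤ T * (n : R) ^ 2 := mul_le_mul_of_nonneg_left this hT0.le
  linarith

theorem sq2 {x y w : R} (hx : 0 ≤ x) (hx' : x ≤ n) (hy : 0 ≤ y) (hw : 0 ≤ w)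
    (hyw : y + w ≤ n) :
    0 ≤ T * (x - (y + w)) ^ 2 ∧ 16 * (T * (x - (y + w)) ^ 2) ≤ T ^ 2 :=
  h.sq1 hx hx' (by linarith) hyw

end Hyp

/-- The points for the substitutions. -/
def pt {n : ℕ} (T : R) (D : ℕ) (f : Kind n) (i j k : Fin n) (a b e : R) : Fin 4 → R :=
  match f with
  | .Ab => ![inst T D a b e ((1, j) : Pos n), T ^ (expA D + 1), T ^ (2 * D + 2), T]
  | .Ac => ![-inst T D a b e ((2, k) : Pos n), T ^ (expA D + 1), T ^ (2 * D + 2), T]
  | .Ba => ![T ^ (expB D + 1) + T * a ^ 2, inst T D a b e ((0, i) : Pos n),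
      T ^ (2 * D + 2) - 2 * T * a, T]
  | .Bc => ![T ^ (expB D + 1) + T * a ^ 2,
      -inst T D a b e ((2, k) : Pos n) - (T ^ (expB D + 1) + T * a ^ 2),
      T ^ (2 * D + 2) - 2 * T * a, T]
  | .Ca => ![T ^ (expA D + 1) + T ^ (expB D + 1) - T * b ^ 2 - e * T,
      inst T D a b e ((0, i) : Pos n), T ^ (2 * D + 2) + 2 * T * b, T]
  | .Cb => ![inst T D a b e ((1, j) : Pos n),
      T ^ (expA D + 1) + T ^ (expB D + 1) - T * b ^ 2 - e * T
        - inst T D a b e ((1, j) : Pos n), T ^ (2 * D + 2) + 2 * T * b, T]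
  | .J j k => ![inst T D a b e ((1, j) : Pos n), T ^ (expA D + 1), T ^ (2 * D + 2),
      T * ((((j : ℕ) : R) - a) ^ 2 + (((k : ℕ) : R) - b) ^ 2 + e)]

section eval

omit [LinearOrder R] [IsStrictOrderedRing R]
variable {n : ℕ} (T : R) (D : ℕ) (i j k : Fin n) (a b e : R)

theorem eval_Ab (v : Pos n) (hv : v.1 = 0 ∨ v = (1, j)) :
    inst T D a b e v = eval (pt T D .Ab i j k a b e) (frm R .Ab v) := by
  rw [frm, eval_lin]
  rcases hv with hv | rfl
  · obtain ⟨l, t⟩ := v
    obtain rfl : l = 0 := hv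
    simp [inst, pt, form, form0]
  · simp [inst, pt, form, form0]

theorem eval_Ac (v : Pos n) (hv : v.1 = 0 ∨ v = (2, k)) :
    inst T D a b e v = eval (pt T D .Ac i j k a b e) (frm R .Ac v) := by
  rw [frm, eval_lin]
  rcases hv with hv | rfl
  · obtain ⟨l, t⟩ := v
    obtain rfl : l = 0 := hv
    simp [inst, pt, form, form0]
  · simp [inst, pt, form, form0]

theorem eval_Ba (v : Pos n) (hv : v.1 = 1 ∨ v = (0, i)) :
    inst T D a b e v = eval (pt T D .Ba i j k a b e) (frm R .Ba v) := by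
  rw [frm, eval_lin]
  rcases hv with hv | rfl
  · obtain ⟨l, t⟩ := v
    obtain rfl : l = 1 := hv
    simp [inst, pt, form, form0]
    ring
  · simp [inst, pt, form, form0]

theorem eval_Bc (v : Pos n) (hv : v.1 = 1 ∨ v = (2, k)) :
    inst T D a b e v = eval (pt T D .Bc i j k a b e) (frm R .Bc v) := by
  rw [frm, eval_lin]
  rcases hv with hv | rfl
  · obtain ⟨l, t⟩ := v
    obtain rfl : l = 1 := hv
    simp [inst, pt, form, form0]
    ring
  · simp [inst, pt, form, form0]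
    ring

theorem eval_Ca (v : Pos n) (hv : v.1 = 2 ∨ v = (0, i)) :
    inst T D a b e v = eval (pt T D .Ca i j k a b e) (frm R .Ca v) := by
  rw [frm, eval_lin]
  rcases hv with hv | rfl
  · obtain ⟨l, t⟩ := v
    obtain rfl : l = 2 := hv
    simp [inst, pt, form, form0]
    ring
  · simp [inst, pt, form, form0]

theorem eval_Cb (v : Pos n) (hv : v.1 = 2 ∨ v = (1, j)) :
    inst T D a b e v = eval (pt T D .Cb i j k a b e) (frm R .Cb v) := by
  rw [frm, eval_lin]
  rcases hv with hv | rfl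
  · obtain ⟨l, t⟩ := v
    obtain rfl : l = 2 := hv
    simp [inst, pt, form, form0]
    ring
  · simp [inst, pt, form, form0]

theorem eval_J (v : Pos n) (hv : v.1 = 0 ∨ v = (1, j) ∨ v = (2, k)) :
    inst T D a b e v = eval (pt T D (.J j k) i j k a b e) (frm R (.J j k) v) := by
  rw [frm, eval_lin]
  rcases hv with hv | rfl | rfl
  · obtain ⟨l, t⟩ := v
    obtain rfl : l = 0 := hv
    simp [inst, pt, form, form0]
  · simp [inst, pt, form, form0]
  · simp [inst, pt, form, form0]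
    ring

end eval

section regions

set_option linter.unusedSectionVars false

variable {n D : ℕ} {κ T : R} (h : Hyp n D κ T) (i j k : Fin n) {a b e : R}
  (ha : 0 ≤ a) (hb : 0 ≤ b) (ha' : a ≤ n) (hb' : b ≤ n) (he : 0 ≤ e) (he1 : e ≤ 1)
include h ha hb ha' hb' he he1

theorem region_Ab : Region κ D (pt T D .Ab i j k a b e) := by
  obtain ⟨f1, f2, f3, f4, f5, f6, f7, f8, f9, f10, f11, f12⟩ := h.facts
  have hT := h.T3
  have hn := h.one_le_n
  have hT0 : 0 < T := by linarith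
  obtain ⟨t1, t2⟩ := h.sq1 (x := ((j : ℕ) : R)) (y := a) (by positivity)
    (by exact_mod_cast j.2.le) ha ha'
  have u1 : 0 ≤ ((j : ℕ) : R) * T ^ (2 * D + 2) := mul_nonneg (by positivity) (h.pos _).le
  refine h.region ?_ ?_ ?_ ?_ ?_ ?_ ?_ <;> simp only [pt, inst, Matrix.cons_val] <;>
    linarith [h.pos (2 * D + 2), h.pos (expA D), h.pos (expA D + 1), h.pos (expB D), h.pos (2 * D + 1)]

theorem region_Ac : Region κ D (pt T D .Ac i j k a b e) := by
  obtain ⟨f1, f2, f3, f4, f5, f6, f7, f8, f9, f10, f11, f12⟩ := h.facts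
  have hT := h.T3
  have hn := h.one_le_n
  have hT0 : 0 < T := by linarith
  obtain ⟨t1, t2⟩ := h.sq1 (x := ((k : ℕ) : R)) (y := b) (by positivity)
    (by exact_mod_cast k.2.le) hb hb'
  have u1 : 0 ≤ ((k : ℕ) : R) * T ^ (2 * D + 2) := mul_nonneg (by positivity) (h.pos _).le
  have w3 : e * T ≤ T := by nlinarith
  refine h.region ?_ ?_ ?_ ?_ ?_ ?_ ?_ <;> simp only [pt, inst, Matrix.cons_val] <;>
    linarith [h.pos (2 * D + 2), h.pos (expA D), h.pos (expA D + 1), h.pos (expB D), h.pos (2 * D + 1)]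

theorem region_Ba : Region κ D (pt T D .Ba i j k a b e) := by
  obtain ⟨f1, f2, f3, f4, f5, f6, f7, f8, f9, f10, f11, f12⟩ := h.facts
  have hT := h.T3
  have hn := h.one_le_n
  have hT0 : 0 < T := by linarith
  obtain ⟨s1, s2⟩ := h.sq1 ha ha' le_rfl (by linarith)
  rw [sub_zero] at s1 s2
  have u1 : 0 ≤ ((i : ℕ) : R) * T ^ (2 * D + 2) := mul_nonneg (by positivity) (h.pos _).le
  have u2 : ((i : ℕ) : R) * T ^ (2 * D + 2) ≤ (n : R) * T ^ (2 * D + 2) :=
    mul_le_mul_of_nonneg_right (by exact_mod_cast i.2.le) (h.pos _).le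
  have w1 : 0 ≤ T * a := by positivity
  have w2 : T * a ≤ (n : R) * T := by
    rw [mul_comm]
    exact mul_le_mul_of_nonneg_right (by linarith) hT0.le
  refine h.region ?_ ?_ ?_ ?_ ?_ ?_ ?_ <;> simp only [pt, inst, Matrix.cons_val] <;>
    linarith [h.pos (2 * D + 2), h.pos (expA D), h.pos (expA D + 1), h.pos (expB D), h.pos (2 * D + 1)]

theorem region_Bc : Region κ D (pt T D .Bc i j k a b e) := by
  obtain ⟨f1, f2, f3, f4, f5, f6, f7, f8, f9, f10, f11, f12⟩ := h.facts
  have hT := h.T3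
  have hn := h.one_le_n
  have hT0 : 0 < T := by linarith
  obtain ⟨s1, s2⟩ := h.sq1 ha ha' le_rfl (by linarith)
  obtain ⟨t1, t2⟩ := h.sq1 (x := ((k : ℕ) : R)) (y := b) (by positivity)
    (by exact_mod_cast k.2.le) hb hb'
  rw [sub_zero] at s1 s2
  have u1 : 0 ≤ ((k : ℕ) : R) * T ^ (2 * D + 2) := mul_nonneg (by positivity) (h.pos _).le
  have u2 : ((k : ℕ) : R) * T ^ (2 * D + 2) ≤ (n : R) * T ^ (2 * D + 2) :=
    mul_le_mul_of_nonneg_right (by exact_mod_cast k.2.le) (h.pos _).le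
  have w1 : 0 ≤ T * a := by positivity
  have w2 : T * a ≤ (n : R) * T := by
    rw [mul_comm]
    exact mul_le_mul_of_nonneg_right (by linarith) hT0.le
  have w3 : e * T ≤ T := by nlinarith
  have w4 : 0 ≤ e * T := by positivity
  refine h.region ?_ ?_ ?_ ?_ ?_ ?_ ?_ <;> simp only [pt, inst, Matrix.cons_val] <;>
    linarith [h.pos (2 * D + 2), h.pos (expA D), h.pos (expA D + 1), h.pos (expB D), h.pos (2 * D + 1)]

theorem region_Ca : Region κ D (pt T D .Ca i j k a b e) := by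
  obtain ⟨f1, f2, f3, f4, f5, f6, f7, f8, f9, f10, f11, f12⟩ := h.facts
  have hT := h.T3
  have hn := h.one_le_n
  have hT0 : 0 < T := by linarith
  obtain ⟨s1, s2⟩ := h.sq1 hb hb' le_rfl (by linarith)
  rw [sub_zero] at s1 s2
  have u1 : 0 ≤ ((i : ℕ) : R) * T ^ (2 * D + 2) := mul_nonneg (by positivity) (h.pos _).le
  have u2 : ((i : ℕ) : R) * T ^ (2 * D + 2) ≤ (n : R) * T ^ (2 * D + 2) :=
    mul_le_mul_of_nonneg_right (by exact_mod_cast i.2.le) (h.pos _).le
  have w1 : 0 ≤ T * b := by positivity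
  have w2 : T * b ≤ (n : R) * T := by
    rw [mul_comm]
    exact mul_le_mul_of_nonneg_right (by linarith) hT0.le
  have w3 : e * T ≤ T := by nlinarith
  have w4 : 0 ≤ e * T := by positivity
  refine h.region ?_ ?_ ?_ ?_ ?_ ?_ ?_ <;> simp only [pt, inst, Matrix.cons_val] <;>
    linarith [h.pos (2 * D + 2), h.pos (expA D), h.pos (expA D + 1), h.pos (expB D), h.pos (2 * D + 1)]

theorem region_Cb : Region κ D (pt T D .Cb i j k a b e) := by
  obtain ⟨f1, f2, f3, f4, f5, f6, f7, f8, f9, f10, f11, f12⟩ := h.facts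
  have hT := h.T3
  have hn := h.one_le_n
  have hT0 : 0 < T := by linarith
  obtain ⟨s1, s2⟩ := h.sq1 hb hb' le_rfl (by linarith)
  obtain ⟨t1, t2⟩ := h.sq1 (x := ((j : ℕ) : R)) (y := a) (by positivity)
    (by exact_mod_cast j.2.le) ha ha'
  rw [sub_zero] at s1 s2
  have u1 : 0 ≤ ((j : ℕ) : R) * T ^ (2 * D + 2) := mul_nonneg (by positivity) (h.pos _).le
  have u2 : ((j : ℕ) : R) * T ^ (2 * D + 2) ≤ (n : R) * T ^ (2 * D + 2) :=
    mul_le_mul_of_nonneg_right (by exact_mod_cast j.2.le) (h.pos _).le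
  have w1 : 0 ≤ T * b := by positivity
  have w2 : T * b ≤ (n : R) * T := by
    rw [mul_comm]
    exact mul_le_mul_of_nonneg_right (by linarith) hT0.le
  have w3 : e * T ≤ T := by nlinarith
  have w4 : 0 ≤ e * T := by positivity
  refine h.region ?_ ?_ ?_ ?_ ?_ ?_ ?_ <;> simp only [pt, inst, Matrix.cons_val] <;>
    linarith [h.pos (2 * D + 2), h.pos (expA D), h.pos (expA D + 1), h.pos (expB D), h.pos (2 * D + 1)]

theorem region_J (hq : 1 ≤ (((j : ℕ) : R) - a) ^ 2 + (((k : ℕ) : R) - b) ^ 2 + e) :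
    Region κ D (pt T D (.J j k) i j k a b e) := by
  obtain ⟨f1, f2, f3, f4, f5, f6, f7, f8, f9, f10, f11, f12⟩ := h.facts
  have hT := h.T3
  have hn := h.one_le_n
  have hT0 : 0 < T := by linarith
  obtain ⟨s1, s2⟩ := h.sq1 (x := ((k : ℕ) : R)) (y := b) (by positivity)
    (by exact_mod_cast k.2.le) hb hb'
  obtain ⟨t1, t2⟩ := h.sq1 (x := ((j : ℕ) : R)) (y := a) (by positivity)
    (by exact_mod_cast j.2.le) ha ha'
  have u3 : 0 ≤ ((j : ℕ) : R) * T ^ (2 * D + 2) := mul_nonneg (by positivity) (h.pos _).le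
  have w3 : e * T ≤ T := by nlinarith
  have w4 : 0 ≤ e * T := by positivity
  refine h.region ?_ ?_ ?_ ?_ ?_ ?_ ?_
  · simp only [pt, Matrix.cons_val]
    exact le_mul_of_one_le_right hT0.le hq
  all_goals simp only [pt, inst, Matrix.cons_val]
  all_goals
    linarith [h.pos (2 * D + 2), h.pos (expA D), h.pos (expA D + 1), h.pos (expB D), h.pos (2 * D + 1)]

end regions

/-- The polynomial is well conditioned: no coefficient of the substituted polynomials is small. -/
def Conditioned {n : ℕ} (κ : R) (p : MvPolynomial (Pos n) R) : Prop :=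
  ∀ f : Kind n, ∀ m ∈ (bind₁ (frm R f) p).support,
    weight (bind₁ (frm R f) p) ≤ κ * |(bind₁ (frm R f) p).coeff m|

/-- The test reads the numbers `b j` and `c k` and a number of the first third. -/
def Touches {n : ℕ} (S : Finset (Pos n)) (j k : Fin n) : Prop :=
  (∃ i : Fin n, (0, i) ∈ S) ∧ (1, j) ∈ S ∧ (2, k) ∈ S

/-- The adversary lemma. -/
theorem adversary {n D : ℕ} {κ T : R} (h : Hyp n D κ T) (p : MvPolynomial (Pos n) R)
    (hD : p.totalDegree ≤ D) (hκ : Conditioned κ p) (hres : Restricted p.vars)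
    (j₀ k₀ : Fin n) (hnot : ¬ Touches p.vars j₀ k₀) :
    SignType.sign (eval (inst T D 0 0 1) p) =
      SignType.sign (eval (inst T D ((j₀ : ℕ) : R) ((k₀ : ℕ) : R) 0) p) := by
  have hn := h.one_le_n
  have ha : (0 : R) ≤ ((j₀ : ℕ) : R) := by positivity
  have hb : (0 : R) ≤ ((k₀ : ℕ) : R) := by positivity
  have ha' : ((j₀ : ℕ) : R) ≤ n := by exact_mod_cast j₀.2.le
  have hb' : ((k₀ : ℕ) : R) ≤ n := by exact_mod_cast k₀.2.le
  have h00 : (0 : R) ≤ n := by linarith
  have main : ∀ (f : Kind n) (i j k : Fin n),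
      Region κ D (pt T D f i j k 0 0 1) →
      Region κ D (pt T D f i j k ((j₀ : ℕ) : R) ((k₀ : ℕ) : R) 0) →
      (∀ (a b e : R), ∀ v ∈ p.vars, inst T D a b e v = eval (pt T D f i j k a b e) (frm R f v)) →
      SignType.sign (eval (inst T D 0 0 1) p) =
        SignType.sign (eval (inst T D ((j₀ : ℕ) : R) ((k₀ : ℕ) : R) 0) p) := by
    intro f i j k r1 r2 hf
    exact sign_eq_of_forms κ h.hκ D p hD (frm R f) (fun v => totalDegree_lin _) (hκ f) _ _ _ _ r1 r2
      (hf _ _ _) (hf _ _ _)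
  have z : Fin n := ⟨0, h.hn⟩
  have case1 : ∀ (l : Fin 3) (v : Pos n), (∀ u ∈ p.vars, u.1 = l ∨ u = v) →
      SignType.sign (eval (inst T D 0 0 1) p) =
        SignType.sign (eval (inst T D ((j₀ : ℕ) : R) ((k₀ : ℕ) : R) 0) p) := by
    rintro l ⟨l', t⟩ hv
    have hl : l = 0 ∨ l = 1 ∨ l = 2 := by
      fin_cases l <;> simp
    have hl' : l' = 0 ∨ l' = 1 ∨ l' = 2 := by
      fin_cases l' <;> simp
    rcases hl with rfl | rfl | rfl
    · rcases hl' with rfl | rfl | rfl
      · refine main .Ab t t t (region_Ab h _ _ _ le_rfl le_rfl h00 h00 zero_le_one le_rfl)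
          (region_Ab h _ _ _ ha hb ha' hb' le_rfl zero_le_one) fun a b e v hv' => ?_
        refine eval_Ab T D t t t a b e v ?_
        rcases hv v hv' with h1 | h1
        · exact Or.inl h1
        · exact Or.inl (by rw [h1])
      · exact main .Ab t t t (region_Ab h _ _ _ le_rfl le_rfl h00 h00 zero_le_one le_rfl)
          (region_Ab h _ _ _ ha hb ha' hb' le_rfl zero_le_one) fun a b e v hv' =>
            eval_Ab T D t t t a b e v (hv v hv')
      · exact main .Ac t t t (region_Ac h _ _ _ le_rfl le_rfl h00 h00 zero_le_one le_rfl)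
          (region_Ac h _ _ _ ha hb ha' hb' le_rfl zero_le_one) fun a b e v hv' =>
            eval_Ac T D t t t a b e v (hv v hv')
    · rcases hl' with rfl | rfl | rfl
      · exact main .Ba t t t (region_Ba h _ _ _ le_rfl le_rfl h00 h00 zero_le_one le_rfl)
          (region_Ba h _ _ _ ha hb ha' hb' le_rfl zero_le_one) fun a b e v hv' =>
            eval_Ba T D t t t a b e v (hv v hv')
      · refine main .Ba t t t (region_Ba h _ _ _ le_rfl le_rfl h00 h00 zero_le_one le_rfl)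
          (region_Ba h _ _ _ ha hb ha' hb' le_rfl zero_le_one) fun a b e v hv' => ?_
        refine eval_Ba T D t t t a b e v ?_
        rcases hv v hv' with h1 | h1
        · exact Or.inl h1
        · exact Or.inl (by rw [h1])
      · exact main .Bc t t t (region_Bc h _ _ _ le_rfl le_rfl h00 h00 zero_le_one le_rfl)
          (region_Bc h _ _ _ ha hb ha' hb' le_rfl zero_le_one) fun a b e v hv' =>
            eval_Bc T D t t t a b e v (hv v hv')
    · rcases hl' with rfl | rfl | rfl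
      · exact main .Ca t t t (region_Ca h _ _ _ le_rfl le_rfl h00 h00 zero_le_one le_rfl)
          (region_Ca h _ _ _ ha hb ha' hb' le_rfl zero_le_one) fun a b e v hv' =>
            eval_Ca T D t t t a b e v (hv v hv')
      · exact main .Cb t t t (region_Cb h _ _ _ le_rfl le_rfl h00 h00 zero_le_one le_rfl)
          (region_Cb h _ _ _ ha hb ha' hb' le_rfl zero_le_one) fun a b e v hv' =>
            eval_Cb T D t t t a b e v (hv v hv')
      · refine main .Ca t t t (region_Ca h _ _ _ le_rfl le_rfl h00 h00 zero_le_one le_rfl)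
          (region_Ca h _ _ _ ha hb ha' hb' le_rfl zero_le_one) fun a b e v hv' => ?_
        refine eval_Ca T D t t t a b e v ?_
        rcases hv v hv' with h1 | h1
        · exact Or.inl h1
        · exact Or.inl (by rw [h1])
  rcases restricted_cases _ hres with ⟨l, v, hv⟩ | hS | ⟨j, k, hS⟩
  · exact case1 l v hv
  · refine case1 0 (0, z) fun u hu => ?_
    rw [hS] at hu
    exact absurd hu (Finset.notMem_empty _)
  · by_cases hjk : (j, k) = (j₀, k₀)
    · obtain ⟨rfl, rfl⟩ := Prod.mk.inj hjk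
      by_cases h1 : ∃ i : Fin n, (0, i) ∈ p.vars
      · by_cases h2 : (1, j) ∈ p.vars
        · have h3 : (2, k) ∉ p.vars := fun h3 => hnot ⟨h1, h2, h3⟩
          refine case1 0 (1, j) fun u hu => ?_
          rcases hS u hu with h4 | h4 | h4
          · exact Or.inl h4
          · exact Or.inr h4
          · exact absurd (h4 ▸ hu) h3
        · refine case1 0 (2, k) fun u hu => ?_
          rcases hS u hu with h4 | h4 | h4
          · exact Or.inl h4
          · exact absurd (h4 ▸ hu) h2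
          · exact Or.inr h4
      · refine case1 1 (2, k) fun u hu => ?_
        rcases hS u hu with h4 | h4 | h4
        · obtain ⟨l, t⟩ := u
          obtain rfl : l = 0 := h4
          exact absurd ⟨t, hu⟩ h1
        · exact Or.inl (by rw [h4])
        · exact Or.inr h4
    · refine main (.J j k) j j k (region_J h _ _ _ le_rfl le_rfl h00 h00 zero_le_one le_rfl ?_)
        (region_J h _ _ _ ha hb ha' hb' le_rfl zero_le_one ?_) fun a b e v hv' =>
          eval_J T D j j k a b e v (hS v hv')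
      · have h1 := sq_nonneg (((j : ℕ) : R) - 0)
        have h2 := sq_nonneg (((k : ℕ) : R) - 0)
        linarith
      · have hne : ¬ ((j : ℕ) = j₀ ∧ (k : ℕ) = k₀) := by
          rintro ⟨h1, h2⟩
          exact hjk (Prod.ext (Fin.ext h1) (Fin.ext h2))
        have hint : (1 : ℤ) ≤ (((j : ℕ) : ℤ) - (j₀ : ℕ)) ^ 2 + (((k : ℕ) : ℤ) - (k₀ : ℕ)) ^ 2 := by
          by_contra hcon
          have h1 := sq_nonneg (((j : ℕ) : ℤ) - (j₀ : ℕ))
          have h2 := sq_nonneg (((k : ℕ) : ℤ) - (k₀ : ℕ))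
          have h3 : (((j : ℕ) : ℤ) - (j₀ : ℕ)) ^ 2 = 0 := by omega
          have h4 : (((k : ℕ) : ℤ) - (k₀ : ℕ)) ^ 2 = 0 := by omega
          have h5 := pow_eq_zero_iff (two_ne_zero) |>.1 h3
          have h6 := pow_eq_zero_iff (two_ne_zero) |>.1 h4
          exact hne ⟨by omega, by omega⟩
        have hint' : (1 : R) ≤ (((j : ℕ) : R) - (j₀ : ℕ)) ^ 2 + (((k : ℕ) : R) - (k₀ : ℕ)) ^ 2 := by
          exact_mod_cast hint
        linarith

end Pool.Agent.Helper24.AT
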