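import Pool.Agent.Helper24.AT.Props

/-!
# The main theorems
-/

open MvPolynomial

namespace Pool.Agent.Helper24.AT

section cond

variable {A : Type} [CommRing A] [LinearOrder A] [IsStrictOrderedRing A] {n : ℕ}

theorem Conditioned.mono {κ κ' : A} {p : MvPolynomial (Pos n) A} (h : Conditioned κ p)
    (hκ : κ ≤ κ') : Conditioned κ' p := fun f m hm =>
  (h f m hm).trans (mul_le_mul_of_nonneg_right hκ (abs_nonneg _))

/-- Polynomials with integer coefficients. -/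
theorem conditioned_int (D : ℕ) (L : ℤ) (p : MvPolynomial (Pos n) ℤ) (hn : 1 ≤ n)
    (hD : p.totalDegree ≤ D) (hL : weight p ≤ L) :
    Conditioned (L * (6 * (n : ℤ) ^ 2) ^ D) p := by
  intro f m hm
  have hn1 : (1 : ℤ) ≤ n := by exact_mod_cast hn
  have hn2 : (1 : ℤ) ≤ 6 * (n : ℤ) ^ 2 := by nlinarith [one_le_pow₀ hn1 (n := 2)]
  have h1 := weight_bind_le (frm ℤ f) (6 * (n : ℤ) ^ 2) (fun v => weight_frm f v) hn2 p D hD
  have h0 : 0 ≤ (6 * (n : ℤ) ^ 2) ^ D := by positivity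
  have h2 : weight p * (6 * (n : ℤ) ^ 2) ^ D ≤ L * (6 * (n : ℤ) ^ 2) ^ D :=
    mul_le_mul_of_nonneg_right hL h0
  have h3 : (1 : ℤ) ≤ |(bind₁ (frm ℤ f) p).coeff m| := Int.one_le_abs (mem_support_iff.1 hm)
  have h4 : 0 ≤ L * (6 * (n : ℤ) ^ 2) ^ D := mul_nonneg ((weight_nonneg p).trans hL) h0
  calc weight (bind₁ (frm ℤ f) p) ≤ L * (6 * (n : ℤ) ^ 2) ^ D := h1.trans h2
    _ = L * (6 * (n : ℤ) ^ 2) ^ D * 1 := (mul_one _).symm
    _ ≤ _ := mul_le_mul_of_nonneg_left h3 h4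

end cond

/-- Polynomials with real coefficients. -/
theorem exists_conditioned {n : ℕ} (p : MvPolynomial (Pos n) ℝ) :
    ∃ κ : ℝ, 0 ≤ κ ∧ Conditioned κ p := by
  classical
  have : Fintype (Kind n) := Fintype.ofFinite _
  refine ⟨∑ f : Kind n, ∑ m ∈ (bind₁ (frm ℝ f) p).support,
    weight (bind₁ (frm ℝ f) p) / |(bind₁ (frm ℝ f) p).coeff m|, ?_, ?_⟩
  · exact Finset.sum_nonneg fun f _ => Finset.sum_nonneg fun m _ =>
      div_nonneg (weight_nonneg _) (abs_nonneg _)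
  · intro f m hm
    have hpos : 0 < |(bind₁ (frm ℝ f) p).coeff m| := abs_pos.2 (mem_support_iff.1 hm)
    have h1 : weight (bind₁ (frm ℝ f) p) / |(bind₁ (frm ℝ f) p).coeff m| ≤
        ∑ m ∈ (bind₁ (frm ℝ f) p).support,
          weight (bind₁ (frm ℝ f) p) / |(bind₁ (frm ℝ f) p).coeff m| :=
      Finset.single_le_sum (f := fun m => weight (bind₁ (frm ℝ f) p) /
        |(bind₁ (frm ℝ f) p).coeff m|)
        (fun m _ => div_nonneg (weight_nonneg _) (abs_nonneg _)) hm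
    have h2 := Finset.single_le_sum (f := fun f : Kind n =>
      ∑ m ∈ (bind₁ (frm ℝ f) p).support,
        weight (bind₁ (frm ℝ f) p) / |(bind₁ (frm ℝ f) p).coeff m|)
      (fun f _ => Finset.sum_nonneg fun m _ => div_nonneg (weight_nonneg _) (abs_nonneg _))
      (Finset.mem_univ f)
    have h3 := h1.trans h2
    rwa [div_le_iff₀ hpos] at h3

namespace Tree

theorem All.mono {A : Type} [CommRing A] {n : ℕ} {P P' : Test A n → Prop}
    (h : ∀ t, P t → P' t) : ∀ τ : Tree A n, τ.All P → τ.All P'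
  | answer _, _ => trivial
  | node t next, hτ => ⟨h t hτ.1, fun s => All.mono h (next s) (hτ.2 s)⟩

end Tree

/-- The test is well conditioned. -/
def Good {A : Type} [CommRing A] [LinearOrder A] [IsStrictOrderedRing A] {n : ℕ} (D : ℕ) (κ : A)
    (t : Test A n) : Prop :=
  t.poly.totalDegree ≤ D ∧ Conditioned κ t.poly

theorem Good.mono {n : ℕ} {D D' : ℕ} {κ κ' : ℝ} {t : Test ℝ n} (h : Good D κ t) (hD : D ≤ D')
    (hκ : κ ≤ κ') : Good D' κ' t := ⟨h.1.trans hD, h.2.mono hκ⟩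

theorem exists_good_tree {n : ℕ} (τ : Tree ℝ n) :
    ∃ (D : ℕ) (κ : ℝ), 0 ≤ κ ∧ τ.All (Good D κ) := by
  classical
  induction τ with
  | answer b => exact ⟨0, 0, le_rfl, trivial⟩
  | node t next ih =>
    choose D κ hκ hall using ih
    obtain ⟨κ0, hκ0, hc⟩ := exists_conditioned t.poly
    refine ⟨t.poly.totalDegree + ∑ s, D s, κ0 + ∑ s, κ s,
      add_nonneg hκ0 (Finset.sum_nonneg fun s _ => hκ s), ⟨?_, ?_⟩, fun s => ?_⟩
    · exact Nat.le_add_right _ _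
    · exact hc.mono (le_add_of_nonneg_right (Finset.sum_nonneg fun s _ => hκ s))
    · refine Tree.All.mono (fun t' ht' => ht'.mono ?_ ?_) _ (hall s)
      · have := Finset.single_le_sum (f := D) (fun _ _ => Nat.zero_le _) (Finset.mem_univ s)
        omega
      · have := Finset.single_le_sum (f := κ) (fun s _ => hκ s) (Finset.mem_univ s)
        linarith

theorem exists_good_family {n : ℕ} {ι : Type} [Fintype ι] (F : ι → Test ℝ n) :
    ∃ (D : ℕ) (κ : ℝ), 1 ≤ D ∧ 0 ≤ κ ∧ ∀ i, Good D κ (F i) := by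
  classical
  choose κ hκ hc using fun i => exists_conditioned (F i).poly
  refine ⟨1 + ∑ i, (F i).poly.totalDegree, ∑ i, κ i, by omega,
    Finset.sum_nonneg fun s _ => hκ s, fun i => ⟨?_, (hc i).mono ?_⟩⟩
  · have := Finset.single_le_sum (f := fun i => (F i).poly.totalDegree)
      (fun _ _ => Nat.zero_le _) (Finset.mem_univ i)
    omega
  · exact Finset.single_le_sum (f := κ) (fun s _ => hκ s) (Finset.mem_univ i)

theorem exists_good_trees {n : ℕ} {ι : Type} [Fintype ι] (τ : ι → Tree ℝ n) :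
    ∃ (D : ℕ) (κ : ℝ), 1 ≤ D ∧ 0 ≤ κ ∧ ∀ i, (τ i).All (Good D κ) := by
  classical
  choose D κ hκ hc using fun i => exists_good_tree (τ i)
  refine ⟨1 + ∑ i, D i, ∑ i, κ i, by omega,
    Finset.sum_nonneg fun s _ => hκ s, fun i => ?_⟩
  refine Tree.All.mono (fun t' ht' => ht'.mono ?_ ?_) _ (hc i)
  · have := Finset.single_le_sum (f := D) (fun _ _ => Nat.zero_le _) (Finset.mem_univ i)
    omega
  · exact Finset.single_le_sum (f := κ) (fun s _ => hκ s) (Finset.mem_univ i)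

/-- Equal signs. -/
theorem good_sign {A : Type} [CommRing A] [LinearOrder A] [IsStrictOrderedRing A] {n D : ℕ}
    {κ T : A} (h : Hyp n D κ T) (j k : Fin n) (t : Test A n) (ht : Good D κ t)
    (hnot : ¬ Touches t.poly.vars j k) :
    SignType.sign (eval (inst T D 0 0 1) t.poly) =
      SignType.sign (eval (inst T D ((j : ℕ) : A) ((k : ℕ) : A) 0) t.poly) :=
  adversary h t.poly ht.1 ht.2 t.reads j k hnot

/-- The parameters for the integers. -/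
theorem hyp_int {n D : ℕ} {L Q : ℤ} (hn : 1 ≤ n) (hD : 1 ≤ D) (hL : 1 ≤ L) (hQ : 1 ≤ Q) :
    Hyp n D (L * (6 * (n : ℤ) ^ 2) ^ D)
      (16 * (n : ℤ) ^ 2 * (L * (6 * (n : ℤ) ^ 2) ^ D + 1) * Q) := by
  have h1 : (0 : ℤ) ≤ L * (6 * (n : ℤ) ^ 2) ^ D := by positivity
  refine ⟨hn, hD, h1, ?_⟩
  have h2 : (0 : ℤ) ≤ 16 * (n : ℤ) ^ 2 * (L * (6 * (n : ℤ) ^ 2) ^ D + 1) := by positivity
  nlinarith

theorem param_le {n D : ℕ} {L Q R : ℤ} (hn : 1 ≤ n) (hL : 1 ≤ L) (hQ : 1 ≤ Q)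
    (hR : (32 * L * Q * (n : ℤ) ^ 2 * (6 * (n : ℤ) ^ 2) ^ D) ^
      (2 * D ^ 3 + 7 * D ^ 2 + 12 * D + 3) ≤ R) :
    (16 * (n : ℤ) ^ 2 * (L * (6 * (n : ℤ) ^ 2) ^ D + 1) * Q) ^ (expB D + 2) ≤ R := by
  refine le_trans ?_ hR
  have he : expB D + 2 = 2 * D ^ 3 + 7 * D ^ 2 + 12 * D + 3 := by
    unfold expB expA
    ring
  rw [he]
  have hn1 : (1 : ℤ) ≤ n := by exact_mod_cast hn
  have hn2 : (1 : ℤ) ≤ 6 * (n : ℤ) ^ 2 := by nlinarith [one_le_pow₀ hn1 (n := 2)]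
  have h1 : (1 : ℤ) ≤ (6 * (n : ℤ) ^ 2) ^ D := one_le_pow₀ hn2
  have h2 : (1 : ℤ) ≤ L * (6 * (n : ℤ) ^ 2) ^ D := by nlinarith
  have h3 : (0 : ℤ) ≤ (n : ℤ) ^ 2 := by positivity
  refine pow_le_pow_left₀ (by positivity) ?_ _
  have h4 : L * (6 * (n : ℤ) ^ 2) ^ D + 1 ≤ 2 * (L * (6 * (n : ℤ) ^ 2) ^ D) := by linarith
  calc 16 * (n : ℤ) ^ 2 * (L * (6 * (n : ℤ) ^ 2) ^ D + 1) * Q
      ≤ 16 * (n : ℤ) ^ 2 * (2 * (L * (6 * (n : ℤ) ^ 2) ^ D)) * Q :=
        mul_le_mul_of_nonneg_right (mul_le_mul_of_nonneg_left h4 (by positivity)) (by linarith)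
    _ = 32 * L * Q * (n : ℤ) ^ 2 * (6 * (n : ℤ) ^ 2) ^ D := by ring

/-- Integers. -/
theorem main_int (n D : ℕ) (L Q R : ℤ) (hn : 1 ≤ n) (hD : 1 ≤ D) (hL : 1 ≤ L) (hQ : 1 ≤ Q)
    (hR : (32 * L * Q * (n : ℤ) ^ 2 * (6 * (n : ℤ) ^ 2) ^ D) ^
      (2 * D ^ 3 + 7 * D ^ 2 + 12 * D + 3) ≤ R) :
    ∃ x : Pos n → ℤ, (Function.Injective x ∧ (∀ v, |x v| ≤ R) ∧ ¬ Solved x) ∧
      (∀ (m : ℕ) (σ : Fin m → Test ℤ n),
        (∀ r, (σ r).poly.totalDegree ≤ D ∧ weight (σ r).poly ≤ L) →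
        2 * Nat.card {r : Fin m // (σ r).Cross} < n * (n + 1) →
        ∃ y : Pos n → ℤ, Function.Injective y ∧ (∀ v, |y v| ≤ R) ∧ Solved y ∧
          (∀ i, y (0, i) = x (0, i)) ∧ (∀ v, y v ≡ x v [ZMOD Q]) ∧
          ∀ r, SignType.sign (eval x (σ r).poly) = SignType.sign (eval y (σ r).poly)) ∧
      (∀ (Ω : Type) [Fintype Ω] (w : Ω → ℝ), (∀ ω, 0 ≤ w ω) → ∑ ω, w ω = 1 →
        ∀ (p : ℝ) (τ : Ω → Tree ℤ n),
        (∀ ω, (τ ω).All fun t => t.poly.totalDegree ≤ D ∧ weight t.poly ≤ L) →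
        (∀ y : Pos n → ℤ, Function.Injective y → (∀ v, |y v| ≤ R) →
          (∀ i, y (0, i) = x (0, i)) → (∀ v, y v ≡ x v [ZMOD Q]) →
          p ≤ pr w fun ω => ((τ ω).run y = true ↔ Solved y)) →
        (2 * p - 1) * ((n : ℝ) * (n + 1) / 2) ≤ ∑ ω, w ω * ((τ ω).cost x : ℝ)) := by
  set κ : ℤ := L * (6 * (n : ℤ) ^ 2) ^ D with hκ
  set T : ℤ := 16 * (n : ℤ) ^ 2 * (κ + 1) * Q with hT
  have h : Hyp n D κ T := hyp_int hn hD hL hQ
  have hTR : T ^ (expB D + 2) ≤ R := param_le hn hL hQ hR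
  have hQT : Q ∣ T := ⟨16 * (n : ℤ) ^ 2 * (κ + 1), by rw [hT]; ring⟩
  have h00 : (0 : ℤ) ≤ n := by positivity
  have hP : ∀ t : Test ℤ n, (t.poly.totalDegree ≤ D ∧ weight t.poly ≤ L) → Good D κ t :=
    fun t ht => ⟨ht.1, conditioned_int D L t.poly hn ht.1 ht.2⟩
  have hj : ∀ j : Fin n, (0 : ℤ) ≤ ((j : ℕ) : ℤ) ∧ ((j : ℕ) : ℤ) ≤ n := fun j =>
    ⟨by positivity, by exact_mod_cast j.2.le⟩
  refine ⟨inst T D 0 0 1, ⟨inst_injective h le_rfl le_rfl h00 h00 zero_le_one le_rfl,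
    fun v => (inst_abs_le h le_rfl le_rfl h00 h00 zero_le_one le_rfl v).trans hTR,
    base_not_solved h⟩, ?_, ?_⟩
  · intro m σ hσ hm
    obtain ⟨j, k, hjk, hs⟩ := certificate (fun t => Good D κ t) (inst T D 0 0 1)
      (fun j k => inst T D ((j : ℕ) : ℤ) ((k : ℕ) : ℤ) 0)
      (fun j k _ t ht hnot => good_sign h j k t ht hnot) m σ (fun r => hP _ (hσ r)) hm
    exact ⟨_, inst_injective h (hj j).1 (hj k).1 (hj j).2 (hj k).2 le_rfl zero_le_one,
      fun v => (inst_abs_le h (hj j).1 (hj k).1 (hj j).2 (hj k).2 le_rfl zero_le_one v).trans hTR,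
      solved_inst T D j k hjk, fun i => rfl, fun v => (inst_modEq T Q hQT D _ _ v).symm, hs⟩
  · intro Ω _ w hw hw1 p τ hτ hcorr
    refine expected p (fun t => Good D κ t) (inst T D 0 0 1)
      (fun j k => inst T D ((j : ℕ) : ℤ) ((k : ℕ) : ℤ) 0)
      (fun j k _ t ht hnot => good_sign h j k t ht hnot) Ω w hw hw1 τ
      (fun ω => Tree.All.mono hP _ (hτ ω)) ?_ ?_
    · have := hcorr (inst T D 0 0 1) (inst_injective h le_rfl le_rfl h00 h00 zero_le_one le_rfl)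
        (fun v => (inst_abs_le h le_rfl le_rfl h00 h00 zero_le_one le_rfl v).trans hTR)
        (fun i => rfl) (fun v => Int.ModEq.refl _)
      simpa only [base_not_solved h, iff_false, Bool.not_eq_true] using this
    · intro j k hjk
      have h1 := hcorr (inst T D ((j : ℕ) : ℤ) ((k : ℕ) : ℤ) 0)
        (inst_injective h (hj j).1 (hj k).1 (hj j).2 (hj k).2 le_rfl zero_le_one)
        (fun v => (inst_abs_le h (hj j).1 (hj k).1 (hj j).2 (hj k).2 le_rfl zero_le_one v).trans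
          hTR) (fun i => rfl) (fun v => (inst_modEq T Q hQT D _ _ v).symm)
      simpa only [solved_inst T D j k hjk, iff_true] using h1

/-- Reals, certificates. -/
theorem main_real_cert (n : ℕ) (hn : 1 ≤ n) (M : ℕ) (F : Fin M → Test ℝ n) :
    ∃ x : Pos n → ℝ, (Function.Injective x ∧ ¬ Solved x) ∧
      ∀ I : Finset (Fin M), 2 * Nat.card {r : Fin M // r ∈ I ∧ (F r).Cross} < n * (n + 1) →
        ∃ y : Pos n → ℝ, Function.Injective y ∧ Solved y ∧ (∀ i, y (0, i) = x (0, i)) ∧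
          ∀ r ∈ I, SignType.sign (eval x (F r).poly) = SignType.sign (eval y (F r).poly) := by
  obtain ⟨D, κ, hD, hκ, hgood⟩ := exists_good_family F
  have h : Hyp n D κ (16 * (n : ℝ) ^ 2 * (κ + 1)) := ⟨hn, hD, hκ, le_rfl⟩
  set T := 16 * (n : ℝ) ^ 2 * (κ + 1) with hT
  have h00 : (0 : ℝ) ≤ n := by positivity
  have hj : ∀ j : Fin n, (0 : ℝ) ≤ ((j : ℕ) : ℝ) ∧ ((j : ℕ) : ℝ) ≤ n := fun j =>
    ⟨by positivity, by exact_mod_cast j.2.le⟩
  refine ⟨inst T D 0 0 1, ⟨inst_injective h le_rfl le_rfl h00 h00 zero_le_one le_rfl,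
    base_not_solved h⟩, fun I hI => ?_⟩
  obtain ⟨e⟩ : Nonempty (Fin I.card ≃ I) := ⟨I.equivFin.symm⟩
  have hcard : Nat.card {r : Fin I.card // (F (e r)).Cross} ≤
      Nat.card {r : Fin M // r ∈ I ∧ (F r).Cross} := by
    refine Nat.card_le_card_of_injective
      (fun r : {r : Fin I.card // (F (e r)).Cross} => ⟨(e r.1 : Fin M), (e r.1).2, r.2⟩) ?_
    intro r s hrs
    simp only [Subtype.mk.injEq] at hrs
    exact Subtype.ext (e.injective (Subtype.ext hrs))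
  obtain ⟨j, k, hjk, hs⟩ := certificate (fun t => Good D κ t) (inst T D 0 0 1)
      (fun j k => inst T D ((j : ℕ) : ℝ) ((k : ℕ) : ℝ) 0)
      (fun j k _ t ht hnot => good_sign h j k t ht hnot) I.card (fun r => F (e r))
      (fun r => hgood _) (by omega)
  refine ⟨_, inst_injective h (hj j).1 (hj k).1 (hj j).2 (hj k).2 le_rfl zero_le_one,
      solved_inst T D j k hjk, fun i => rfl, fun r hr => ?_⟩
  have := hs (e.symm ⟨r, hr⟩)
  simpa using this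

/-- Reals, algorithms. -/
theorem main_real_alg (n : ℕ) (hn : 1 ≤ n) (Ω : Type) [Fintype Ω] (w : Ω → ℝ)
    (hw : ∀ ω, 0 ≤ w ω) (hw1 : ∑ ω, w ω = 1) (p : ℝ) (τ : Ω → Tree ℝ n)
    (hcorr : ∀ y : Pos n → ℝ, Function.Injective y →
      p ≤ pr w fun ω => ((τ ω).run y = true ↔ Solved y)) :
    ∃ x : Pos n → ℝ, (Function.Injective x ∧ ¬ Solved x) ∧
      (2 * p - 1) * ((n : ℝ) * (n + 1) / 2) ≤ ∑ ω, w ω * ((τ ω).cost x : ℝ) := by
  obtain ⟨D, κ, hD, hκ, hgood⟩ := exists_good_trees τ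
  have h : Hyp n D κ (16 * (n : ℝ) ^ 2 * (κ + 1)) := ⟨hn, hD, hκ, le_rfl⟩
  set T := 16 * (n : ℝ) ^ 2 * (κ + 1) with hT
  have h00 : (0 : ℝ) ≤ n := by positivity
  have hj : ∀ j : Fin n, (0 : ℝ) ≤ ((j : ℕ) : ℝ) ∧ ((j : ℕ) : ℝ) ≤ n := fun j =>
    ⟨by positivity, by exact_mod_cast j.2.le⟩
  refine ⟨inst T D 0 0 1, ⟨inst_injective h le_rfl le_rfl h00 h00 zero_le_one le_rfl,
    base_not_solved h⟩, ?_⟩
  refine expected p (fun t => Good D κ t) (inst T D 0 0 1)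
      (fun j k => inst T D ((j : ℕ) : ℝ) ((k : ℕ) : ℝ) 0)
      (fun j k _ t ht hnot => good_sign h j k t ht hnot) Ω w hw hw1 τ hgood ?_ ?_
  · have := hcorr (inst T D 0 0 1) (inst_injective h le_rfl le_rfl h00 h00 zero_le_one le_rfl)
    simpa only [base_not_solved h, iff_false, Bool.not_eq_true] using this
  · intro j k hjk
    have h1 := hcorr (inst T D ((j : ℕ) : ℝ) ((k : ℕ) : ℝ) 0)
      (inst_injective h (hj j).1 (hj k).1 (hj j).2 (hj k).2 le_rfl zero_le_one)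
    simpa only [solved_inst T D j k hjk, iff_true] using h1

end Pool.Agent.Helper24.AT
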