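import Pool.Agent.Helper24.AT.Tree

/-!
# Properties of the lists
-/

open MvPolynomial

namespace Pool.Agent.Helper24.AT

/-- Three different positions of the list with sum zero. -/
def Solved {A : Type} [AddCommMonoid A] {n : ℕ} (x : Pos n → A) : Prop :=
  ∃ u v w : Pos n, u ≠ v ∧ u ≠ w ∧ v ≠ w ∧ x u + x v + x w = 0

variable {A : Type} [CommRing A] [LinearOrder A] [IsStrictOrderedRing A]

section bounds

variable {n D : ℕ} {κ T : A} (h : Hyp n D κ T) {a b e : A}
  (ha : 0 ≤ a) (hb : 0 ≤ b) (ha' : a ≤ n) (hb' : b ≤ n) (he : 0 ≤ e) (he1 : e ≤ 1)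
include h ha hb ha' hb' he he1

/-- The sizes of the numbers. -/
theorem sizes (v : Pos n) :
    (v.1 = 0 → |4 * (inst T D a b e v - T ^ (expA D + 1))| ≤ T ^ (2 * D + 3)) ∧
    (v.1 = 1 → |4 * (inst T D a b e v - T ^ (expB D + 1))| ≤ T ^ (2 * D + 3)) ∧
    (v.1 = 2 → |4 * (inst T D a b e v + T ^ (expA D + 1) + T ^ (expB D + 1))| ≤
      T ^ (2 * D + 3)) := by
  obtain ⟨f1, f2, f3, f4, f5, f6, f7, f8, f9, f10, f11, f12⟩ := h.facts
  have hT := h.T3
  have hn := h.one_le_n
  have hT0 : 0 < T := by linarith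
  obtain ⟨l, j⟩ := v
  obtain ⟨t1, t2⟩ := h.sq1 (x := ((j : ℕ) : A)) (y := a) (by positivity)
    (by exact_mod_cast j.2.le) ha ha'
  obtain ⟨s1, s2⟩ := h.sq1 (x := ((j : ℕ) : A)) (y := b) (by positivity)
    (by exact_mod_cast j.2.le) hb hb'
  have u1 : 0 ≤ ((j : ℕ) : A) * T ^ (2 * D + 2) := mul_nonneg (by positivity) (h.pos _).le
  have u2 : ((j : ℕ) : A) * T ^ (2 * D + 2) ≤ (n : A) * T ^ (2 * D + 2) :=
    mul_le_mul_of_nonneg_right (by exact_mod_cast j.2.le) (h.pos _).le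
  have w3 : e * T ≤ T := by nlinarith
  have w4 : 0 ≤ e * T := by positivity
  have p1 := h.pos (2 * D + 2)
  have p2 := h.pos (2 * D + 1)
  have p3 := h.pos (2 * D + 3)
  refine ⟨?_, ?_, ?_⟩
  all_goals
    intro hl
    simp only at hl
    subst hl
    simp only [inst, Matrix.cons_val]
    rw [abs_le]
    constructor <;> linarith

/-- The numbers are bounded. -/
theorem inst_abs_le (v : Pos n) : |inst T D a b e v| ≤ T ^ (expB D + 2) := by
  obtain ⟨f1, f2, f3, f4, f5, f6, f7, f8, f9, f10, f11, f12⟩ := h.facts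
  have f13 := h.step (a := expB D + 1) (b := expB D + 2) (by omega)
  obtain ⟨z0, z1, z2⟩ := sizes h ha hb ha' hb' he he1 v
  have p1 := h.pos (2 * D + 3)
  have p2 := h.pos (expA D)
  have p3 := h.pos (expA D + 1)
  have p4 := h.pos (expB D)
  have hl : v.1 = 0 ∨ v.1 = 1 ∨ v.1 = 2 := by
    obtain ⟨l, j⟩ := v
    fin_cases l <;> simp
  rcases hl with hl | hl | hl
  · have := abs_le.1 (z0 hl)
    rw [abs_le]
    constructor <;> linarith [this.1, this.2]
  · have := abs_le.1 (z1 hl)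
    rw [abs_le]
    constructor <;> linarith [this.1, this.2]
  · have := abs_le.1 (z2 hl)
    rw [abs_le]
    constructor <;> linarith [this.1, this.2]

/-- The numbers in one third are different. -/
theorem inst_ne_of_lt (l : Fin 3) (i j : Fin n) (hij : i < j) :
    inst T D a b e (l, i) ≠ inst T D a b e (l, j) := by
  obtain ⟨f1, f2, f3, f4, f5, f6, f7, f8, f9, f10, f11, f12⟩ := h.facts
  obtain ⟨t1, t2⟩ := h.sq1 (x := ((j : ℕ) : A)) (y := a) (by positivity)
    (by exact_mod_cast j.2.le) ha ha'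
  obtain ⟨s1, s2⟩ := h.sq1 (x := ((j : ℕ) : A)) (y := b) (by positivity)
    (by exact_mod_cast j.2.le) hb hb'
  obtain ⟨t3, t4⟩ := h.sq1 (x := ((i : ℕ) : A)) (y := a) (by positivity)
    (by exact_mod_cast i.2.le) ha ha'
  obtain ⟨s3, s4⟩ := h.sq1 (x := ((i : ℕ) : A)) (y := b) (by positivity)
    (by exact_mod_cast i.2.le) hb hb'
  have hij' : ((i : ℕ) : A) + 1 ≤ ((j : ℕ) : A) := by exact_mod_cast hij
  have p1 := h.pos (2 * D + 2)
  have p2 := h.pos (2 * D + 1)
  have key : (((i : ℕ) : A) + 1) * T ^ (2 * D + 2) ≤ ((j : ℕ) : A) * T ^ (2 * D + 2) :=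
    mul_le_mul_of_nonneg_right hij' p1.le
  rw [add_mul, one_mul] at key
  have hl : l = 0 ∨ l = 1 ∨ l = 2 := by fin_cases l <;> simp
  have hT0 : 0 < T ^ 2 := h.pos 2
  rcases hl with rfl | rfl | rfl <;> intro hcon <;>
    simp only [inst, Matrix.cons_val] at hcon <;> linarith

/-- The numbers of the list are different. -/
theorem inst_injective : Function.Injective (inst T D a b e : Pos n → A) := by
  obtain ⟨f1, f2, f3, f4, f5, f6, f7, f8, f9, f10, f11, f12⟩ := h.facts
  have p1 := h.pos (2 * D + 3)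
  have p2 := h.pos (expA D)
  have p3 := h.pos (expA D + 1)
  have p4 := h.pos (expB D)
  rintro ⟨l, i⟩ ⟨m, j⟩ hij
  obtain ⟨z0, z1, z2⟩ := sizes h ha hb ha' hb' he he1 (l, i)
  obtain ⟨y0, y1, y2⟩ := sizes h ha hb ha' hb' he he1 (m, j)
  rw [hij] at z0 z1 z2
  simp only [abs_le] at z0 z1 z2 y0 y1 y2
  have hl : l = 0 ∨ l = 1 ∨ l = 2 := by fin_cases l <;> simp
  have hm : m = 0 ∨ m = 1 ∨ m = 2 := by fin_cases m <;> simp
  have hlm : l = m := by
    rcases hl with rfl | rfl | rfl <;> rcases hm with rfl | rfl | rfl <;> first | rfl | exfalso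
    · have e1 := z0 rfl
      have e2 := y1 rfl
      linarith [e1.1, e1.2, e2.1, e2.2]
    · have e1 := z0 rfl
      have e2 := y2 rfl
      linarith [e1.1, e1.2, e2.1, e2.2]
    · have e1 := z1 rfl
      have e2 := y0 rfl
      linarith [e1.1, e1.2, e2.1, e2.2]
    · have e1 := z1 rfl
      have e2 := y2 rfl
      linarith [e1.1, e1.2, e2.1, e2.2]
    · have e1 := z2 rfl
      have e2 := y0 rfl
      linarith [e1.1, e1.2, e2.1, e2.2]
    · have e1 := z2 rfl
      have e2 := y1 rfl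
      linarith [e1.1, e1.2, e2.1, e2.2]
  subst hlm
  rcases lt_trichotomy i j with h1 | h1 | h1
  · exact absurd hij (inst_ne_of_lt h ha hb ha' hb' he he1 l i j h1)
  · rw [h1]
  · exact absurd hij.symm (inst_ne_of_lt h ha hb ha' hb' he he1 l j i h1)

end bounds

section solutions

variable {n D : ℕ} {κ T : A} (h : Hyp n D κ T)
include h

/-- One number of each third. -/
theorem base_cross (i j k : Fin n) :
    inst T D 0 0 1 ((0, i) : Pos n) + inst T D 0 0 1 ((1, j) : Pos n) +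
      inst T D 0 0 1 ((2, k) : Pos n) ≠ 0 := by
  obtain ⟨f1, f2, f3, f4, f5, f6, f7, f8, f9, f10, f11, f12⟩ := h.facts
  have hn := h.one_le_n
  have hT0 : 0 < T := by linarith [h.T3]
  obtain ⟨t1, t2⟩ := h.sq1 (x := ((j : ℕ) : A)) (y := 0) (by positivity)
    (by exact_mod_cast j.2.le) le_rfl (by linarith)
  obtain ⟨s1, s2⟩ := h.sq1 (x := ((k : ℕ) : A)) (y := 0) (by positivity)
    (by exact_mod_cast k.2.le) le_rfl (by linarith)
  have p1 := h.pos (2 * D + 2)
  have p2 := h.pos (2 * D + 1)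
  have p3 : 0 < T ^ 2 := h.pos 2
  intro hcon
  simp only [inst, Matrix.cons_val] at hcon
  rcases lt_trichotomy ((i : ℕ) + j) k with h1 | h1 | h1
  · have h2 : ((i : ℕ) : A) + ((j : ℕ) : A) + 1 ≤ ((k : ℕ) : A) := by exact_mod_cast h1
    have key := mul_le_mul_of_nonneg_right h2 p1.le
    rw [add_mul, add_mul, one_mul] at key
    linarith
  · have h2 : ((i : ℕ) : A) + ((j : ℕ) : A) = ((k : ℕ) : A) := by exact_mod_cast h1
    have key : (((i : ℕ) : A) + ((j : ℕ) : A)) * T ^ (2 * D + 2) =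
      ((k : ℕ) : A) * T ^ (2 * D + 2) := by rw [h2]
    rw [add_mul] at key
    linarith
  · have h2 : ((k : ℕ) : A) + 1 ≤ ((i : ℕ) : A) + ((j : ℕ) : A) := by exact_mod_cast h1
    have key := mul_le_mul_of_nonneg_right h2 p1.le
    rw [add_mul, add_mul, one_mul] at key
    linarith

/-- The list without solution. -/
theorem base_not_solved : ¬ Solved (inst T D 0 0 1 : Pos n → A) := by
  obtain ⟨f1, f2, f3, f4, f5, f6, f7, f8, f9, f10, f11, f12⟩ := h.facts
  have p1 := h.pos (2 * D + 3)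
  have p2 := h.pos (expA D)
  have p3 := h.pos (expA D + 1)
  have p4 := h.pos (expB D)
  have hn := h.one_le_n
  rintro ⟨⟨l, i⟩, ⟨m, j⟩, ⟨r, k⟩, -, -, -, hs⟩
  obtain ⟨x0, x1, x2⟩ := sizes h le_rfl le_rfl (by linarith) (by linarith) zero_le_one le_rfl (l, i)
  obtain ⟨y0, y1, y2⟩ := sizes h le_rfl le_rfl (by linarith) (by linarith) zero_le_one le_rfl (m, j)
  obtain ⟨z0, z1, z2⟩ := sizes h le_rfl le_rfl (by linarith) (by linarith) zero_le_one le_rfl (r, k)
  simp only [abs_le] at x0 x1 x2 y0 y1 y2 z0 z1 z2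
  have hl : l = 0 ∨ l = 1 ∨ l = 2 := by fin_cases l <;> simp
  have hm : m = 0 ∨ m = 1 ∨ m = 2 := by fin_cases m <;> simp
  have hr : r = 0 ∨ r = 1 ∨ r = 2 := by fin_cases r <;> simp
  rcases hl with rfl | rfl | rfl
  · have e1 := x0 rfl
    rcases hm with rfl | rfl | rfl
    · have e2 := y0 rfl
      rcases hr with rfl | rfl | rfl
      · have e3 := z0 rfl
        linarith [e1.1, e1.2, e2.1, e2.2, e3.1, e3.2]
      · have e3 := z1 rfl
        linarith [e1.1, e1.2, e2.1, e2.2, e3.1, e3.2]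
      · have e3 := z2 rfl
        linarith [e1.1, e1.2, e2.1, e2.2, e3.1, e3.2]
    · have e2 := y1 rfl
      rcases hr with rfl | rfl | rfl
      · have e3 := z0 rfl
        linarith [e1.1, e1.2, e2.1, e2.2, e3.1, e3.2]
      · have e3 := z1 rfl
        linarith [e1.1, e1.2, e2.1, e2.2, e3.1, e3.2]
      · exact base_cross h i j k hs
    · have e2 := y2 rfl
      rcases hr with rfl | rfl | rfl
      · have e3 := z0 rfl
        linarith [e1.1, e1.2, e2.1, e2.2, e3.1, e3.2]
      · exact base_cross h i k j (by linear_combination hs)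
      · have e3 := z2 rfl
        linarith [e1.1, e1.2, e2.1, e2.2, e3.1, e3.2]
  · have e1 := x1 rfl
    rcases hm with rfl | rfl | rfl
    · have e2 := y0 rfl
      rcases hr with rfl | rfl | rfl
      · have e3 := z0 rfl
        linarith [e1.1, e1.2, e2.1, e2.2, e3.1, e3.2]
      · have e3 := z1 rfl
        linarith [e1.1, e1.2, e2.1, e2.2, e3.1, e3.2]
      · exact base_cross h j i k (by linear_combination hs)
    · have e2 := y1 rfl
      rcases hr with rfl | rfl | rfl
      · have e3 := z0 rfl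
        linarith [e1.1, e1.2, e2.1, e2.2, e3.1, e3.2]
      · have e3 := z1 rfl
        linarith [e1.1, e1.2, e2.1, e2.2, e3.1, e3.2]
      · have e3 := z2 rfl
        linarith [e1.1, e1.2, e2.1, e2.2, e3.1, e3.2]
    · have e2 := y2 rfl
      rcases hr with rfl | rfl | rfl
      · exact base_cross h k i j (by linear_combination hs)
      · have e3 := z1 rfl
        linarith [e1.1, e1.2, e2.1, e2.2, e3.1, e3.2]
      · have e3 := z2 rfl
        linarith [e1.1, e1.2, e2.1, e2.2, e3.1, e3.2]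
  · have e1 := x2 rfl
    rcases hm with rfl | rfl | rfl
    · have e2 := y0 rfl
      rcases hr with rfl | rfl | rfl
      · have e3 := z0 rfl
        linarith [e1.1, e1.2, e2.1, e2.2, e3.1, e3.2]
      · exact base_cross h j k i (by linear_combination hs)
      · have e3 := z2 rfl
        linarith [e1.1, e1.2, e2.1, e2.2, e3.1, e3.2]
    · have e2 := y1 rfl
      rcases hr with rfl | rfl | rfl
      · exact base_cross h k j i (by linear_combination hs)
      · have e3 := z1 rfl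
        linarith [e1.1, e1.2, e2.1, e2.2, e3.1, e3.2]
      · have e3 := z2 rfl
        linarith [e1.1, e1.2, e2.1, e2.2, e3.1, e3.2]
    · have e2 := y2 rfl
      rcases hr with rfl | rfl | rfl
      · have e3 := z0 rfl
        linarith [e1.1, e1.2, e2.1, e2.2, e3.1, e3.2]
      · have e3 := z1 rfl
        linarith [e1.1, e1.2, e2.1, e2.2, e3.1, e3.2]
      · have e3 := z2 rfl
        linarith [e1.1, e1.2, e2.1, e2.2, e3.1, e3.2]

end solutions

/-- The lists with a solution. -/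
theorem solved_inst {n : ℕ} (T : A) (D : ℕ) (j k : Fin n) (hjk : (j : ℕ) ≤ k) :
    Solved (inst T D ((j : ℕ) : A) ((k : ℕ) : A) 0 : Pos n → A) := by
  refine ⟨(0, ⟨k - j, by omega⟩), (1, j), (2, k), by simp, by simp, by simp, ?_⟩
  simp only [inst, Matrix.cons_val]
  rw [Nat.cast_sub hjk]
  ring

/-- The residues are equal. -/
theorem inst_modEq {n : ℕ} (T : ℤ) (Q : ℤ) (hQ : Q ∣ T) (D : ℕ) (a b : ℤ) (v : Pos n) :
    inst T D 0 0 1 v ≡ inst T D a b 0 v [ZMOD Q] := by
  obtain ⟨l, j⟩ := v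
  rw [Int.modEq_iff_dvd]
  obtain ⟨c, rfl⟩ := hQ
  have hl : l = 0 ∨ l = 1 ∨ l = 2 := by fin_cases l <;> simp
  rcases hl with rfl | rfl | rfl <;> simp only [inst, Matrix.cons_val]
  · exact ⟨0, by ring⟩
  · exact ⟨c * ((((j : ℕ) : ℤ) - a) ^ 2 - (((j : ℕ) : ℤ)) ^ 2), by ring⟩
  · exact ⟨c * ((((j : ℕ) : ℤ) - b) ^ 2 - (((j : ℕ) : ℤ)) ^ 2 - 1), by ring⟩

end Pool.Agent.Helper24.AT
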