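import Pool.Agent.Helper24.AT.Adversary

/-!
# Decision trees with polynomial tests
-/

open MvPolynomial

namespace Pool.Agent.Helper24.AT

/-- A test: the sign of a polynomial in the numbers of the list, which reads only few numbers. -/
structure Test (A : Type) [CommRing A] (n : ℕ) where
  /-- the polynomial -/
  poly : MvPolynomial (Pos n) A
  /-- the restriction -/
  reads : Restricted poly.vars

/-- The test reads numbers of all three thirds of the list. -/
def Test.Cross {A : Type} [CommRing A] {n : ℕ} (t : Test A n) : Prop :=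
  ∀ l : Fin 3, ∃ v ∈ t.poly.vars, v.1 = l

/-- A decision tree. -/
inductive Tree (A : Type) [CommRing A] (n : ℕ)
  /-- give the answer -/
  | answer (b : Bool)
  /-- make a test, and go on according to its sign -/
  | node (t : Test A n) (next : SignType → Tree A n)

namespace Tree

variable {A : Type} [CommRing A] [LinearOrder A] [IsStrictOrderedRing A] {n : ℕ}

/-- The answer. -/
noncomputable def run : Tree A n → (Pos n → A) → Bool
  | answer b, _ => b
  | node t next, x => (next (SignType.sign (eval x t.poly))).run x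

open Classical in
/-- The number of tests which read numbers of all three thirds of the list. -/
noncomputable def cost : Tree A n → (Pos n → A) → ℕ
  | answer _, _ => 0
  | node t next, x =>
    (if t.Cross then 1 else 0) + (next (SignType.sign (eval x t.poly))).cost x

omit [LinearOrder A] [IsStrictOrderedRing A] in
/-- All tests of the tree have a property. -/
def All (P : Test A n → Prop) : Tree A n → Prop
  | answer _ => True
  | node t next => P t ∧ ∀ s, (next s).All P

open Classical in
/-- The touched pairs. -/
noncomputable def touched : Tree A n → (Pos n → A) → Finset (Fin n × Fin n)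
  | answer _, _ => ∅
  | node t next, x =>
    (Finset.univ.filter fun q => Touches t.poly.vars q.1 q.2) ∪
      (next (SignType.sign (eval x t.poly))).touched x

omit [LinearOrder A] [IsStrictOrderedRing A] in
theorem touches_card (t : Test A n) [DecidablePred fun q : Fin n × Fin n =>
    Touches t.poly.vars q.1 q.2] [Decidable t.Cross] :
    (Finset.univ.filter fun q : Fin n × Fin n => Touches t.poly.vars q.1 q.2).card ≤
      if t.Cross then 1 else 0 := by
  classical
  split_ifs with hc
  · rw [Finset.card_le_one]
    rintro ⟨j, k⟩ h1 ⟨j', k'⟩ h2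
    replace h1 := (Finset.mem_filter.1 h1).2
    replace h2 := (Finset.mem_filter.1 h2).2
    unfold Touches at h1 h2
    rcases restricted_cases _ t.reads with ⟨l, v, hv⟩ | hS | ⟨b, c, hS⟩
    · exfalso
      obtain ⟨⟨i, h3⟩, h4, h5⟩ := h1
      have e1 : (0 : Fin 3) = l ∨ ((0 : Fin 3), i) = v := hv _ h3
      have e2 : (1 : Fin 3) = l ∨ ((1 : Fin 3), j) = v := hv _ h4
      have e3 : (2 : Fin 3) = l ∨ ((2 : Fin 3), k) = v := hv _ h5
      obtain ⟨l', t'⟩ := v
      simp only [Prod.mk.injEq] at e1 e2 e3
      fin_cases l <;> fin_cases l' <;> simp_all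
    · rw [hS] at h1
      exact absurd h1.2.1 (Finset.notMem_empty _)
    · have e1 : j = b := by
        have := hS _ h1.2.1
        simpa using this
      have e2 : j' = b := by
        have := hS _ h2.2.1
        simpa using this
      have e3 : k = c := by
        have := hS _ h1.2.2
        simpa using this
      have e4 : k' = c := by
        have := hS _ h2.2.2
        simpa using this
      rw [e1, e2, e3, e4]
  · rw [Nat.le_zero, Finset.card_eq_zero, Finset.filter_eq_empty_iff]
    rintro ⟨j, k⟩ - ⟨⟨i, h3⟩, h4, h5⟩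
    apply hc
    intro l
    have hl : l = 0 ∨ l = 1 ∨ l = 2 := by fin_cases l <;> simp
    rcases hl with rfl | rfl | rfl
    · exact ⟨_, h3, rfl⟩
    · exact ⟨_, h4, rfl⟩
    · exact ⟨_, h5, rfl⟩

theorem card_touched_le (τ : Tree A n) (x : Pos n → A) : (τ.touched x).card ≤ τ.cost x := by
  classical
  induction τ with
  | answer b => simp [touched]
  | node t next ih =>
    rw [touched, cost]
    refine (Finset.card_union_le _ _).trans (add_le_add ?_ (ih _))
    exact touches_card t

omit [IsStrictOrderedRing A] in
theorem run_eq (P : Test A n → Prop) (x y : Pos n → A) (i j : Fin n)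
    (hP : ∀ t, P t → ¬ Touches t.poly.vars i j →
      SignType.sign (eval x t.poly) = SignType.sign (eval y t.poly))
    (τ : Tree A n) (hτ : τ.All P) (h : (i, j) ∉ τ.touched x) : τ.run x = τ.run y := by
  classical
  induction τ with
  | answer b => rfl
  | node t next ih =>
    rw [All] at hτ
    rw [touched, Finset.mem_union, not_or] at h
    have h1 : ¬ Touches t.poly.vars i j := by
      intro hcon
      apply h.1
      simpa using hcon
    rw [run, run, ← hP t hτ.1 h1]
    exact ih _ (hτ.2 _) h.2

end Tree

/-- The critical pairs. -/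
def crit (n : ℕ) : Finset (Fin n × Fin n) := Finset.univ.filter fun q => (q.1 : ℕ) ≤ q.2

theorem card_crit (n : ℕ) : 2 * (crit n).card = n * (n + 1) := by
  have h1 : (crit n).card = ∑ k : Fin n, ((k : ℕ) + 1) := by
    unfold crit
    rw [Finset.card_filter, Fintype.sum_prod_type_right]
    refine Finset.sum_congr rfl fun k _ => ?_
    rw [← Finset.card_filter]
    have : (Finset.univ.filter fun j : Fin n => (j : ℕ) ≤ k) =
        (Finset.univ.filter fun j : Fin n => (j : ℕ) < k + 1) := by
      ext j
      simp only [Finset.mem_filter, Finset.mem_univ, true_and]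
      omega
    rw [this, Fin.card_filter_val_lt]
    omega
  rw [h1, Fin.sum_univ_eq_sum_range (fun i => i + 1) n, Finset.sum_add_distrib]
  have h4 := Finset.sum_range_id_mul_two n
  simp only [Finset.sum_const, Finset.card_range, smul_eq_mul, mul_one]
  rcases Nat.eq_zero_or_pos n with rfl | hn
  · simp
  · have : n * (n - 1) + 2 * n = n * (n + 1) := by
      obtain ⟨m, rfl⟩ : ∃ m, n = m + 1 := ⟨n - 1, by omega⟩
      simp only [Nat.add_sub_cancel]
      ring
    omega

open Classical in
/-- The probability of the event `E` for a finite probability space with the weights `w`. -/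
noncomputable def pr {Ω : Type} [Fintype Ω] (w : Ω → ℝ) (E : Ω → Prop) : ℝ :=
  ∑ ω, if E ω then w ω else 0

theorem pr_inter {Ω : Type} [Fintype Ω] (w : Ω → ℝ) (hw : ∀ ω, 0 ≤ w ω) (hw1 : ∑ ω, w ω = 1)
    (E F G : Ω → Prop) (h : ∀ ω, E ω → F ω → G ω) : pr w E + pr w F - 1 ≤ pr w G := by
  classical
  unfold pr
  rw [← hw1, ← Finset.sum_add_distrib, ← Finset.sum_sub_distrib]
  refine Finset.sum_le_sum fun ω _ => ?_
  have := hw ω
  by_cases h1 : E ω <;> by_cases h2 : F ω <;> by_cases h3 : G ω <;> simp [h1, h2, h3, this]
  exact absurd (h ω h1 h2) h3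

/-- Expected cost. -/
theorem expected {A : Type} [CommRing A] [LinearOrder A] [IsStrictOrderedRing A] {n : ℕ} (p : ℝ)
    (P : Test A n → Prop) (x : Pos n → A) (y : Fin n → Fin n → Pos n → A)
    (hP : ∀ i j : Fin n, (i : ℕ) ≤ j → ∀ t, P t → ¬ Touches t.poly.vars i j →
      SignType.sign (eval x t.poly) = SignType.sign (eval (y i j) t.poly))
    (Ω : Type) [Fintype Ω] (w : Ω → ℝ) (hw : ∀ ω, 0 ≤ w ω) (hw1 : ∑ ω, w ω = 1)
    (τ : Ω → Tree A n) (hτ : ∀ ω, (τ ω).All P)
    (hx : p ≤ pr w fun ω => (τ ω).run x = false)
    (hy : ∀ i j : Fin n, (i : ℕ) ≤ j → p ≤ pr w fun ω => (τ ω).run (y i j) = true) :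
    (2 * p - 1) * ((n : ℝ) * (n + 1) / 2) ≤ ∑ ω, w ω * ((τ ω).cost x : ℝ) := by
  classical
  have h1 : ∀ q ∈ crit n, (2 * p - 1 : ℝ) ≤ pr w fun ω => q ∈ (τ ω).touched x := by
    rintro ⟨i, j⟩ hq
    have hij : (i : ℕ) ≤ j := by simpa [crit] using hq
    have := pr_inter w hw hw1 (fun ω => (τ ω).run x = false)
      (fun ω => (τ ω).run (y i j) = true) (fun ω => (i, j) ∈ (τ ω).touched x) (by
        intro ω e1 e2
        by_contra hcon
        have := Tree.run_eq P x (y i j) i j (hP i j hij) (τ ω) (hτ ω) hcon
        rw [e1, e2] at this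
        exact absurd this (by decide))
    have := hy i j hij
    linarith
  calc (2 * p - 1) * ((n : ℝ) * (n + 1) / 2) = ∑ q ∈ crit n, (2 * p - 1 : ℝ) := by
        rw [Finset.sum_const, nsmul_eq_mul]
        have := card_crit n
        have h2 : (2 : ℝ) * ((crit n).card : ℝ) = (n : ℝ) * (n + 1) := by exact_mod_cast this
        rw [← h2]
        ring
    _ ≤ ∑ q ∈ crit n, pr w fun ω => q ∈ (τ ω).touched x := Finset.sum_le_sum h1
    _ = ∑ ω, ∑ q ∈ crit n, if q ∈ (τ ω).touched x then w ω else 0 := by
        unfold pr
        rw [Finset.sum_comm]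
        refine Finset.sum_congr rfl fun ω _ => Finset.sum_congr rfl fun q _ => ?_
        by_cases hq : q ∈ (τ ω).touched x <;> simp only [hq, if_true, if_false]
    _ ≤ ∑ ω, w ω * ((τ ω).cost x : ℝ) := by
        refine Finset.sum_le_sum fun ω _ => ?_
        rw [← Finset.sum_filter, Finset.sum_const, nsmul_eq_mul, mul_comm]
        refine mul_le_mul_of_nonneg_left ?_ (hw ω)
        have : ((crit n).filter fun q => q ∈ (τ ω).touched x).card ≤ (τ ω).cost x := by
          refine (Finset.card_le_card ?_).trans ((τ ω).card_touched_le x)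
          intro q hq
          exact (Finset.mem_filter.1 hq).2
        exact_mod_cast this

/-- Certificates. -/
theorem certificate {A : Type} [CommRing A] [LinearOrder A] [IsStrictOrderedRing A] {n : ℕ}
    (P : Test A n → Prop) (x : Pos n → A) (y : Fin n → Fin n → Pos n → A)
    (hP : ∀ i j : Fin n, (i : ℕ) ≤ j → ∀ t, P t → ¬ Touches t.poly.vars i j →
      SignType.sign (eval x t.poly) = SignType.sign (eval (y i j) t.poly))
    (m : ℕ) (σ : Fin m → Test A n) (hσ : ∀ r, P (σ r))
    (hm : 2 * (Nat.card {r : Fin m // (σ r).Cross}) < n * (n + 1)) :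
    ∃ i j : Fin n, (i : ℕ) ≤ j ∧ ∀ r,
      SignType.sign (eval x (σ r).poly) = SignType.sign (eval (y i j) (σ r).poly) := by
  classical
  have h1 : (Finset.univ.biUnion fun r : Fin m =>
      Finset.univ.filter fun q : Fin n × Fin n => Touches (σ r).poly.vars q.1 q.2).card ≤
      Nat.card {r : Fin m // (σ r).Cross} := by
    refine Finset.card_biUnion_le.trans ?_
    calc ∑ r : Fin m, (Finset.univ.filter fun q : Fin n × Fin n =>
          Touches (σ r).poly.vars q.1 q.2).card
        ≤ ∑ r : Fin m, if (σ r).Cross then 1 else 0 :=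
          Finset.sum_le_sum fun r _ => Tree.touches_card (σ r)
      _ = Nat.card {r : Fin m // (σ r).Cross} := by
          rw [Nat.card_eq_fintype_card, Fintype.card_subtype, Finset.card_filter]
  have h2 : (Finset.univ.biUnion fun r : Fin m =>
      Finset.univ.filter fun q : Fin n × Fin n => Touches (σ r).poly.vars q.1 q.2).card <
      (crit n).card := by
    have := card_crit n
    omega
  obtain ⟨⟨i, j⟩, hq, hq'⟩ := Finset.exists_mem_notMem_of_card_lt_card h2
  have hij : (i : ℕ) ≤ j := by simpa [crit] using hq
  refine ⟨i, j, hij, fun r => hP i j hij _ (hσ r) ?_⟩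
  intro hcon
  apply hq'
  simp only [Finset.mem_biUnion, Finset.mem_univ, Finset.mem_filter, true_and]
  exact ⟨r, hcon⟩

end Pool.Agent.Helper24.AT
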