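import Mathlib

/-!
# Sum of the absolute values of the coefficients of a polynomial, and the dominant monomial
-/

open MvPolynomial

namespace Pool.Agent.Helper24.AT

variable {R : Type*} [CommRing R] [LinearOrder R] [IsStrictOrderedRing R]

/-- The sum of the absolute values of the coefficients. -/
def weight {σ : Type*} (p : MvPolynomial σ R) : R := ∑ m ∈ p.support, |p.coeff m|

section weight

variable {σ : Type*}

theorem weight_nonneg (p : MvPolynomial σ R) : 0 ≤ weight p :=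
  Finset.sum_nonneg fun _ _ => abs_nonneg _

theorem weight_eq_of_subset (p : MvPolynomial σ R) (s : Finset (σ →₀ ℕ)) (h : p.support ⊆ s) :
    weight p = ∑ m ∈ s, |p.coeff m| := by
  unfold weight
  refine Finset.sum_subset h fun m _ hm => ?_
  rw [notMem_support_iff] at hm
  rw [hm, abs_zero]

theorem coeff_le_weight (p : MvPolynomial σ R) (m : σ →₀ ℕ) (hm : m ∈ p.support) :
    |p.coeff m| ≤ weight p :=
  Finset.single_le_sum (f := fun m => |p.coeff m|) (fun _ _ => abs_nonneg _) hm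

theorem weight_add_le (p q : MvPolynomial σ R) : weight (p + q) ≤ weight p + weight q := by
  classical
  rw [weight_eq_of_subset (p + q) (p.support ∪ q.support) support_add,
    weight_eq_of_subset p (p.support ∪ q.support) Finset.subset_union_left,
    weight_eq_of_subset q (p.support ∪ q.support) Finset.subset_union_right,
    ← Finset.sum_add_distrib]
  refine Finset.sum_le_sum fun m _ => ?_
  rw [coeff_add]
  exact abs_add_le _ _

@[simp] theorem weight_zero : weight (0 : MvPolynomial σ R) = 0 := by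
  simp [weight]

theorem weight_sum_le {ι : Type*} (s : Finset ι) (f : ι → MvPolynomial σ R) :
    weight (∑ i ∈ s, f i) ≤ ∑ i ∈ s, weight (f i) := by
  classical
  induction s using Finset.induction_on with
  | empty => simp
  | insert a s ha ih =>
    rw [Finset.sum_insert ha, Finset.sum_insert ha]
    exact (weight_add_le _ _).trans (by gcongr)

theorem weight_monomial_le (m : σ →₀ ℕ) (c : R) : weight (monomial m c) ≤ |c| := by
  classical
  rw [weight_eq_of_subset (monomial m c) {m} support_monomial_subset]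
  simp

theorem weight_C_le (c : R) : weight (C c : MvPolynomial σ R) ≤ |c| := weight_monomial_le _ _

theorem weight_X_le (i : σ) : weight (X i : MvPolynomial σ R) ≤ 1 := by
  have := weight_monomial_le (Finsupp.single i 1) (1 : R)
  simpa [X] using this

theorem weight_mul_le (p q : MvPolynomial σ R) : weight (p * q) ≤ weight p * weight q := by
  classical
  have h : p * q = ∑ a ∈ p.support, ∑ b ∈ q.support,
      monomial (a + b) (p.coeff a * q.coeff b) := by
    rw [mul_def]
    rfl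
  rw [h]
  refine (weight_sum_le _ _).trans ?_
  calc ∑ a ∈ p.support, weight (∑ b ∈ q.support, monomial (a + b) (p.coeff a * q.coeff b))
      ≤ ∑ a ∈ p.support, ∑ b ∈ q.support, |p.coeff a * q.coeff b| := by
        refine Finset.sum_le_sum fun a _ => (weight_sum_le _ _).trans ?_
        exact Finset.sum_le_sum fun b _ => weight_monomial_le _ _
    _ = weight p * weight q := by
        unfold weight
        rw [Finset.sum_mul_sum]
        refine Finset.sum_congr rfl fun a _ => Finset.sum_congr rfl fun b _ => abs_mul _ _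

theorem weight_pow_le (p : MvPolynomial σ R) (K : R) (hK : weight p ≤ K) (hK1 : 1 ≤ K) (n : ℕ) :
    weight (p ^ n) ≤ K ^ n := by
  induction n with
  | zero =>
    rw [pow_zero, pow_zero]
    have := weight_C_le (σ := σ) (1 : R)
    simpa using this
  | succ n ih =>
    rw [pow_succ, pow_succ]
    refine (weight_mul_le _ _).trans ?_
    have h0 := weight_nonneg p
    have h1 := weight_nonneg (p ^ n)
    have h2 : (0 : R) ≤ K ^ n := by positivity
    exact mul_le_mul ih hK h0 h2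

theorem weight_prod_pow_le {τ : Type*} (l : σ → MvPolynomial τ R) (K : R)
    (hK : ∀ i, weight (l i) ≤ K) (hK1 : 1 ≤ K) (m : σ → ℕ) (s : Finset σ) :
    weight (∏ i ∈ s, l i ^ m i) ≤ K ^ (∑ i ∈ s, m i) := by
  classical
  induction s using Finset.induction_on with
  | empty =>
    have := weight_C_le (σ := τ) (1 : R)
    simpa using this
  | insert a s ha ih =>
    rw [Finset.prod_insert ha, Finset.sum_insert ha, pow_add]
    refine (weight_mul_le _ _).trans ?_
    exact mul_le_mul (weight_pow_le _ K (hK a) hK1 _) ih (weight_nonneg _)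
      (by positivity)

/-- Substitution of linear forms. -/
theorem weight_bind_le {τ : Type*} (l : σ → MvPolynomial τ R) (K : R)
    (hK : ∀ i, weight (l i) ≤ K) (hK1 : 1 ≤ K) (p : MvPolynomial σ R) (D : ℕ)
    (hD : p.totalDegree ≤ D) : weight (bind₁ l p) ≤ weight p * K ^ D := by
  classical
  have h : bind₁ l p = ∑ m ∈ p.support, C (p.coeff m) * ∏ i ∈ m.support, l i ^ m i := by
    conv_lhs => rw [p.as_sum]
    rw [map_sum]
    refine Finset.sum_congr rfl fun m _ => ?_
    rw [bind₁_monomial]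
  rw [h]
  refine (weight_sum_le _ _).trans ?_
  unfold weight
  rw [Finset.sum_mul]
  refine Finset.sum_le_sum fun m hm => ?_
  change weight (C (p.coeff m) * ∏ i ∈ m.support, l i ^ m i) ≤ _
  refine (weight_mul_le _ _).trans ?_
  refine mul_le_mul (weight_C_le _) ?_ (weight_nonneg _) (abs_nonneg _)
  refine (weight_prod_pow_le l K hK hK1 m m.support).trans ?_
  refine pow_le_pow_right₀ hK1 ?_
  have := le_totalDegree hm
  exact this.trans hD

omit [LinearOrder R] [IsStrictOrderedRing R] in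
theorem totalDegree_bind_le {τ : Type*} (l : σ → MvPolynomial τ R)
    (hl : ∀ i, (l i).totalDegree ≤ 1) (p : MvPolynomial σ R) :
    (bind₁ l p).totalDegree ≤ p.totalDegree := by
  classical
  have h : bind₁ l p = ∑ m ∈ p.support, C (p.coeff m) * ∏ i ∈ m.support, l i ^ m i := by
    conv_lhs => rw [p.as_sum]
    rw [map_sum]
    refine Finset.sum_congr rfl fun m _ => ?_
    rw [bind₁_monomial]
  rw [h]
  refine (totalDegree_finsetSum _ _).trans ?_
  refine Finset.sup_le fun m hm => ?_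
  refine (totalDegree_mul _ _).trans ?_
  rw [totalDegree_C, zero_add]
  refine (totalDegree_finsetProd _ _).trans ?_
  refine le_trans ?_ (le_totalDegree hm)
  refine Finset.sum_le_sum fun i _ => ?_
  refine (totalDegree_pow _ _).trans ?_
  calc m i * (l i).totalDegree ≤ m i * 1 := Nat.mul_le_mul_left _ (hl i)
    _ = m i := mul_one _

end weight

/-- The region in which the lexicographically largest monomial dominates. -/
structure Region (κ : R) (D : ℕ) (z : Fin 4 → R) : Prop where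
  h3 : κ + 1 ≤ z 3
  h2 : (κ + 1) * z 3 ^ D ≤ z 2
  h1 : (κ + 1) * (z 2 ^ D * z 3 ^ D) ≤ z 1
  h0 : (κ + 1) * (z 1 ^ D * (z 2 ^ D * z 3 ^ D)) ≤ z 0

theorem Region.one_le {κ : R} (hκ : 0 ≤ κ) {D : ℕ} {z : Fin 4 → R} (h : Region κ D z) :
    1 ≤ z 0 ∧ 1 ≤ z 1 ∧ 1 ≤ z 2 ∧ 1 ≤ z 3 := by
  have hk : 1 ≤ κ + 1 := by linarith
  have e3 : 1 ≤ z 3 := hk.trans h.h3
  have e3' : 1 ≤ z 3 ^ D := one_le_pow₀ e3
  have e2 : 1 ≤ z 2 := le_trans (one_le_mul_of_one_le_of_one_le hk e3') h.h2
  have e2' : 1 ≤ z 2 ^ D * z 3 ^ D := one_le_mul_of_one_le_of_one_le (one_le_pow₀ e2) e3'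
  have e1 : 1 ≤ z 1 := le_trans (one_le_mul_of_one_le_of_one_le hk e2') h.h1
  have e1' : 1 ≤ z 1 ^ D * (z 2 ^ D * z 3 ^ D) :=
    one_le_mul_of_one_le_of_one_le (one_le_pow₀ e1) e2'
  have e0 : 1 ≤ z 0 := le_trans (one_le_mul_of_one_le_of_one_le hk e1') h.h0
  exact ⟨e0, e1, e2, e3⟩

/-- Comparison of a monomial with a lexicographically larger one. -/
theorem monomial_lt {κ : R} (hκ : 0 ≤ κ) {D : ℕ} {z : Fin 4 → R} (h : Region κ D z)
    (m m' : Fin 4 → ℕ) (hm : ∀ l, m l ≤ D) (i : Fin 4) (h1 : ∀ j < i, m j = m' j)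
    (h2 : m i < m' i) : (κ + 1) * ∏ l, z l ^ m l ≤ ∏ l, z l ^ m' l := by
  obtain ⟨e0, e1, e2, e3⟩ := h.one_le hκ
  have p0 : 0 < z 0 := by linarith
  have p1 : 0 < z 1 := by linarith
  have p2 : 0 < z 2 := by linarith
  have p3 : 0 < z 3 := by linarith
  have hk : 0 < κ + 1 := by linarith
  rw [Fin.prod_univ_four, Fin.prod_univ_four]
  have q : ∀ (l : Fin 4) (a b : ℕ), 1 ≤ z l → a ≤ b → z l ^ a ≤ z l ^ b :=
    fun l a b h h' => pow_le_pow_right₀ h h'
  have one : ∀ (l : Fin 4) (a : ℕ), 1 ≤ z l → 1 ≤ z l ^ a := fun l a h => one_le_pow₀ h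
  fin_cases i
  · simp only [Fin.zero_eta, Fin.isValue] at h2
    have g1 : z 1 ^ m 1 * (z 2 ^ m 2 * z 3 ^ m 3) ≤ z 1 ^ D * (z 2 ^ D * z 3 ^ D) := by
      have := q 1 _ _ e1 (hm 1)
      have := q 2 _ _ e2 (hm 2)
      have := q 3 _ _ e3 (hm 3)
      gcongr
    calc (κ + 1) * (z 0 ^ m 0 * z 1 ^ m 1 * z 2 ^ m 2 * z 3 ^ m 3)
        = z 0 ^ m 0 * ((κ + 1) * (z 1 ^ m 1 * (z 2 ^ m 2 * z 3 ^ m 3))) := by ring
      _ ≤ z 0 ^ m 0 * ((κ + 1) * (z 1 ^ D * (z 2 ^ D * z 3 ^ D))) := by gcongr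
      _ ≤ z 0 ^ m 0 * z 0 := by gcongr; exact h.h0
      _ = z 0 ^ (m 0 + 1) := (pow_succ _ _).symm
      _ ≤ z 0 ^ m' 0 := q 0 _ _ e0 h2
      _ = z 0 ^ m' 0 * 1 * 1 * 1 := by ring
      _ ≤ z 0 ^ m' 0 * z 1 ^ m' 1 * z 2 ^ m' 2 * z 3 ^ m' 3 := by
        have := one 1 (m' 1) e1
        have := one 2 (m' 2) e2
        have := one 3 (m' 3) e3
        gcongr
  · simp only [Fin.mk_one, Fin.isValue] at h2 h1
    have k0 := h1 0 (by decide)
    have g1 : z 2 ^ m 2 * z 3 ^ m 3 ≤ z 2 ^ D * z 3 ^ D := by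
      have := q 2 _ _ e2 (hm 2)
      have := q 3 _ _ e3 (hm 3)
      gcongr
    calc (κ + 1) * (z 0 ^ m 0 * z 1 ^ m 1 * z 2 ^ m 2 * z 3 ^ m 3)
        = z 0 ^ m 0 * z 1 ^ m 1 * ((κ + 1) * (z 2 ^ m 2 * z 3 ^ m 3)) := by ring
      _ ≤ z 0 ^ m 0 * z 1 ^ m 1 * ((κ + 1) * (z 2 ^ D * z 3 ^ D)) := by gcongr
      _ ≤ z 0 ^ m 0 * z 1 ^ m 1 * z 1 := by gcongr; exact h.h1
      _ = z 0 ^ m 0 * z 1 ^ (m 1 + 1) := by rw [pow_succ]; ring
      _ ≤ z 0 ^ m 0 * z 1 ^ m' 1 := by
        gcongr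
        exact h2
      _ = z 0 ^ m' 0 * z 1 ^ m' 1 * 1 * 1 := by rw [k0]; ring
      _ ≤ z 0 ^ m' 0 * z 1 ^ m' 1 * z 2 ^ m' 2 * z 3 ^ m' 3 := by
        have := one 2 (m' 2) e2
        have := one 3 (m' 3) e3
        gcongr
  · simp only [Fin.reduceFinMk, Fin.isValue] at h2 h1
    have k0 := h1 0 (by decide)
    have k1 := h1 1 (by decide)
    calc (κ + 1) * (z 0 ^ m 0 * z 1 ^ m 1 * z 2 ^ m 2 * z 3 ^ m 3)
        = z 0 ^ m 0 * z 1 ^ m 1 * z 2 ^ m 2 * ((κ + 1) * (z 3 ^ m 3)) := by ring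
      _ ≤ z 0 ^ m 0 * z 1 ^ m 1 * z 2 ^ m 2 * ((κ + 1) * (z 3 ^ D)) := by
        gcongr
        exact hm 3
      _ ≤ z 0 ^ m 0 * z 1 ^ m 1 * z 2 ^ m 2 * z 2 := by gcongr; exact h.h2
      _ = z 0 ^ m 0 * z 1 ^ m 1 * z 2 ^ (m 2 + 1) := by rw [pow_succ]; ring
      _ ≤ z 0 ^ m 0 * z 1 ^ m 1 * z 2 ^ m' 2 := by
        gcongr
        exact h2
      _ = z 0 ^ m' 0 * z 1 ^ m' 1 * z 2 ^ m' 2 * 1 := by rw [k0, k1]; ring
      _ ≤ z 0 ^ m' 0 * z 1 ^ m' 1 * z 2 ^ m' 2 * z 3 ^ m' 3 := by
        have := one 3 (m' 3) e3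
        gcongr
  · simp only [Fin.reduceFinMk, Fin.isValue] at h2 h1
    have k0 := h1 0 (by decide)
    have k1 := h1 1 (by decide)
    have k2 := h1 2 (by decide)
    calc (κ + 1) * (z 0 ^ m 0 * z 1 ^ m 1 * z 2 ^ m 2 * z 3 ^ m 3)
        ≤ z 3 * (z 0 ^ m 0 * z 1 ^ m 1 * z 2 ^ m 2 * z 3 ^ m 3) := by gcongr; exact h.h3
      _ = z 0 ^ m 0 * z 1 ^ m 1 * z 2 ^ m 2 * z 3 ^ (m 3 + 1) := by rw [pow_succ]; ring
      _ ≤ z 0 ^ m' 0 * z 1 ^ m' 1 * z 2 ^ m' 2 * z 3 ^ m' 3 := by
        rw [k0, k1, k2]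
        gcongr
        exact h2

theorem sign_add_of_abs_lt {a r : R} (h : |r| < |a|) :
    SignType.sign (a + r) = SignType.sign a := by
  rcases lt_trichotomy a 0 with ha | ha | ha
  · rw [abs_of_neg ha] at h
    have := (abs_lt.1 h).2
    rw [sign_neg ha, sign_neg (by linarith)]
  · rw [ha, abs_zero] at h
    exact absurd h (not_lt.2 (abs_nonneg _))
  · rw [abs_of_pos ha] at h
    have := (abs_lt.1 h).1
    rw [sign_pos ha, sign_pos (by linarith)]

/-- In the region the sign of a polynomial is constant. -/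
theorem sign_const (κ : R) (hκ : 0 ≤ κ) (D : ℕ) (P : MvPolynomial (Fin 4) R)
    (hD : P.totalDegree ≤ D) (hP : ∀ m ∈ P.support, weight P ≤ κ * |P.coeff m|) :
    ∃ s : SignType, ∀ z : Fin 4 → R, Region κ D z → SignType.sign (eval z P) = s := by
  classical
  by_cases h0 : P = 0
  · exact ⟨0, fun z _ => by rw [h0, map_zero, sign_zero]⟩
  have hne : P.support.Nonempty := by
    rw [Finset.nonempty_iff_ne_empty, Ne, support_eq_empty]
    exact h0
  obtain ⟨m', hm', hmax⟩ := Finset.exists_max_image P.support (fun m => toLex m) hne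
  refine ⟨SignType.sign (P.coeff m'), fun z hz => ?_⟩
  obtain ⟨e0, e1, e2, e3⟩ := hz.one_le hκ
  have hzpos : ∀ l, 0 < z l := by
    intro l
    fin_cases l
    · exact lt_of_lt_of_le one_pos e0
    · exact lt_of_lt_of_le one_pos e1
    · exact lt_of_lt_of_le one_pos e2
    · exact lt_of_lt_of_le one_pos e3
  have hprod : ∀ m : Fin 4 → ℕ, 0 < ∏ l, z l ^ m l := fun m =>
    Finset.prod_pos fun l _ => pow_pos (hzpos l) _
  rw [eval_eq', ← Finset.add_sum_erase _ _ hm']
  have hc : 0 < |P.coeff m'| := abs_pos.2 (mem_support_iff.1 hm')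
  have key : |∑ m ∈ P.support.erase m', P.coeff m * ∏ l, z l ^ m l| <
      |P.coeff m' * ∏ l, z l ^ m' l| := by
    rw [abs_mul, abs_of_pos (hprod m')]
    have h1 : (κ + 1) * |∑ m ∈ P.support.erase m', P.coeff m * ∏ l, z l ^ m l| ≤
        (κ * |P.coeff m'|) * ∏ l, z l ^ m' l := by
      calc (κ + 1) * |∑ m ∈ P.support.erase m', P.coeff m * ∏ l, z l ^ m l|
          ≤ (κ + 1) * ∑ m ∈ P.support.erase m', |P.coeff m| * ∏ l, z l ^ m l := by
            have : (0 : R) ≤ κ + 1 := by linarith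
            refine mul_le_mul_of_nonneg_left ?_ this
            refine (Finset.abs_sum_le_sum_abs _ _).trans (le_of_eq ?_)
            refine Finset.sum_congr rfl fun m _ => ?_
            rw [abs_mul, abs_of_pos (hprod m)]
        _ = ∑ m ∈ P.support.erase m', |P.coeff m| * ((κ + 1) * ∏ l, z l ^ m l) := by
            rw [Finset.mul_sum]
            refine Finset.sum_congr rfl fun m _ => by ring
        _ ≤ ∑ m ∈ P.support.erase m', |P.coeff m| * ∏ l, z l ^ m' l := by
            refine Finset.sum_le_sum fun m hm => ?_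
            refine mul_le_mul_of_nonneg_left ?_ (abs_nonneg _)
            have hm1 := Finset.mem_of_mem_erase hm
            have hm2 := Finset.ne_of_mem_erase hm
            have hle := hmax m hm1
            have hlt : toLex m < toLex m' := lt_of_le_of_ne hle fun h => hm2 (toLex.injective h)
            obtain ⟨i, hi1, hi2⟩ := Finsupp.Lex.lt_iff.1 hlt
            refine monomial_lt hκ hz m m' ?_ i hi1 hi2
            intro l
            exact ((degreeOf_le_totalDegree P l).trans hD |> fun h =>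
              (degreeOf_le_iff.1 h) m hm1)
        _ ≤ weight P * ∏ l, z l ^ m' l := by
            rw [← Finset.sum_mul]
            refine mul_le_mul_of_nonneg_right ?_ (hprod m').le
            exact Finset.sum_le_sum_of_subset_of_nonneg (Finset.erase_subset _ _)
              fun _ _ _ => abs_nonneg _
        _ ≤ (κ * |P.coeff m'|) * ∏ l, z l ^ m' l :=
            mul_le_mul_of_nonneg_right (hP m' hm') (hprod m').le
    have h2 : (κ * |P.coeff m'|) * ∏ l, z l ^ m' l <
        (κ + 1) * (|P.coeff m'| * ∏ l, z l ^ m' l) := by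
      have := mul_pos hc (hprod m')
      nlinarith
    have h3 : (0 : R) < κ + 1 := by linarith
    exact lt_of_mul_lt_mul_left (h1.trans_lt h2) h3.le
  rw [sign_add_of_abs_lt key, sign_mul, sign_pos (hprod m'), mul_one]

/-- The comparison of a polynomial at two points which are given by linear forms. -/
theorem sign_eq_of_forms {V : Type*} (κ : R) (hκ : 0 ≤ κ) (D : ℕ) (p : MvPolynomial V R)
    (hD : p.totalDegree ≤ D) (l : V → MvPolynomial (Fin 4) R)
    (hl : ∀ v, (l v).totalDegree ≤ 1)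
    (hP : ∀ m ∈ (bind₁ l p).support, weight (bind₁ l p) ≤ κ * |(bind₁ l p).coeff m|)
    (x y : V → R) (z w : Fin 4 → R) (hz : Region κ D z) (hw : Region κ D w)
    (hx : ∀ v ∈ p.vars, x v = eval z (l v)) (hy : ∀ v ∈ p.vars, y v = eval w (l v)) :
    SignType.sign (eval x p) = SignType.sign (eval y p) := by
  have e : ∀ (x : V → R) (z : Fin 4 → R), (∀ v ∈ p.vars, x v = eval z (l v)) →
      eval x p = eval z (bind₁ l p) := by
    intro x z h
    have h1 : eval z (bind₁ l p) = eval (fun v => eval z (l v)) p := by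
      have := eval₂Hom_bind₁ (RingHom.id R) z l p
      simpa using this
    rw [h1]
    have := eval₂Hom_congr' (f₁ := RingHom.id R) (f₂ := RingHom.id R) (g₁ := x)
      (g₂ := fun v => eval z (l v)) (p₁ := p) (p₂ := p) rfl (fun i hi _ => h i hi) rfl
    simpa using this
  obtain ⟨s, hs⟩ := sign_const κ hκ D (bind₁ l p) ((totalDegree_bind_le l hl p).trans hD) hP
  rw [e x z hx, e y w hy, hs z hz, hs w hw]

end Pool.Agent.Helper24.AT
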